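import Pool.Agent.Run7.h53.TW.Upper

/-!
# Residue classes
-/

set_option autoImplicit false
set_option linter.unusedSectionVars false

open Finset Filter Topology

namespace Run7.h53.TW

/-- the sequence `a` restricted to the residue class of `c` modulo `q` -/
def cls (a : ℕ → ℝ) (q c k : ℕ) : ℝ := if k % q = c % q then a k else 0

/-- the root of unity `exp (2 π i / q)` -/
noncomputable def om (q : ℕ) : ℂ := Complex.exp (2 * Real.pi * Complex.I / q)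

/-- the constant `∑_j √(|b ω^j - 1| / (b - 1))` -/
noncomputable def LL (b q : ℕ) : ℝ :=
  ∑ j ∈ Ico 1 q, Real.sqrt (‖(b : ℂ) * om q ^ j - 1‖ / ((b : ℝ) - 1))

lemma om_norm {q : ℕ} (hq : q ≠ 0) (j : ℕ) : ‖om q ^ j‖ = 1 := by
  have h := (Complex.isPrimitiveRoot_exp q hq).norm'_eq_one hq
  rw [norm_pow]
  unfold om
  rw [h, one_pow]

lemma om_ne {q : ℕ} (hq : q ≠ 0) {j : ℕ} (hj : j ∈ Ico 1 q) : om q ^ j ≠ 1 := by
  have h := Complex.isPrimitiveRoot_exp q hq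
  intro h1
  have h2 := h.dvd_of_pow_eq_one j h1
  have h3 := mem_Ico.mp hj
  exact absurd (Nat.le_of_dvd (by omega) h2) (by omega)

lemma mod_iff {q : ℕ} (hq : q ≠ 0) (c k : ℕ) : q ∣ k + (q - 1) * c ↔ k % q = c % q := by
  have e : k + (q - 1) * c + c = k + q * c := by
    obtain ⟨r, rfl⟩ := Nat.exists_eq_succ_of_ne_zero hq
    simp only [Nat.succ_eq_add_one, Nat.add_sub_cancel]
    ring
  constructor
  · rintro ⟨m, hm⟩
    have h1 : k + q * c = q * m + c := by rw [← e, hm]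
    have h2 := congrArg (· % q) h1
    simp only [Nat.add_mul_mod_self_left, Nat.mul_add_mod_self_left] at h2
    exact h2
  · intro h
    have h1 : (k + (q - 1) * c + c) % q = (0 + c) % q := by
      rw [e, Nat.add_mul_mod_self_left, h, zero_add]
    have h2 : (k + (q - 1) * c) % q = 0 % q := Nat.ModEq.add_right_cancel' c h1
    rw [Nat.zero_mod] at h2
    exact Nat.dvd_of_mod_eq_zero h2

lemma char_sum {q : ℕ} (hq : q ≠ 0) (c k : ℕ) :
    ∑ j ∈ range q, (om q ^ j) ^ ((q - 1) * c) * (om q ^ j) ^ k =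
      if k % q = c % q then (q : ℂ) else 0 := by
  have hprim : IsPrimitiveRoot (om q) q := Complex.isPrimitiveRoot_exp q hq
  have h1 : ∀ j ∈ range q, (om q ^ j) ^ ((q - 1) * c) * (om q ^ j) ^ k =
      (om q ^ (k + (q - 1) * c)) ^ j := by
    intro j _
    rw [← pow_mul, ← pow_mul, ← pow_add, ← pow_mul]
    congr 1
    ring
  rw [sum_congr rfl h1]
  split_ifs with h
  · have h2 : om q ^ (k + (q - 1) * c) = 1 :=
      (hprim.pow_eq_one_iff_dvd _).mpr ((mod_iff hq c k).mpr h)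
    simp [h2]
  · have h2 : om q ^ (k + (q - 1) * c) ≠ 1 := fun h3 =>
      h ((mod_iff hq c k).mp ((hprim.pow_eq_one_iff_dvd _).mp h3))
    have h3 := mul_neg_geom_sum (om q ^ (k + (q - 1) * c)) q
    have h4 : (om q ^ (k + (q - 1) * c)) ^ q = 1 := by
      rw [← pow_mul, mul_comm, pow_mul, hprim.pow_eq_one, one_pow]
    rw [h4, sub_self] at h3
    rcases mul_eq_zero.mp h3 with h5 | h5
    · exact absurd (sub_eq_zero.mp h5).symm h2
    · exact h5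

section
variable {a : ℕ → ℝ} {β : ℝ}

lemma cls_nonneg (ha0 : ∀ k, 0 ≤ a k) (q c k : ℕ) : 0 ≤ cls a q c k := by
  unfold cls
  split_ifs
  · exact ha0 k
  · exact le_rfl

lemma cls_le (ha0 : ∀ k, 0 ≤ a k) (q c k : ℕ) : cls a q c k ≤ a k := by
  unfold cls
  split_ifs
  · exact le_rfl
  · exact ha0 k

lemma cls_abs (ha0 : ∀ k, 0 ≤ a k) (ha : ∀ k, |a k| ≤ β) (q c k : ℕ) : |cls a q c k| ≤ β := by
  rw [abs_of_nonneg (cls_nonneg ha0 q c k)]
  exact (cls_le ha0 q c k).trans ((le_abs_self _).trans (ha k))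

lemma cls_sum (ha : ∀ k, |a k| ≤ β) {q : ℕ} (hq : q ≠ 0) (c : ℕ) {σ : ℝ}
    (hσ : 0 < σ) :
    (q : ℂ) * (SS (cls a q c) σ : ℂ) =
      ∑ j ∈ range q, (om q ^ j) ^ ((q - 1) * c) * TZ a (om q ^ j) σ := by
  unfold SS TZ
  have h1 : ∀ j ∈ range q, (om q ^ j) ^ ((q - 1) * c) * ∑' k : ℕ,
      ((a (k + 1) * Real.exp (-(σ * ((k + 1 : ℕ) : ℝ))) : ℝ) : ℂ) * (om q ^ j) ^ (k + 1) =
      ∑' k : ℕ, (om q ^ j) ^ ((q - 1) * c) *
        (((a (k + 1) * Real.exp (-(σ * ((k + 1 : ℕ) : ℝ))) : ℝ) : ℂ) * (om q ^ j) ^ (k + 1)) :=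
    fun j _ => tsum_mul_left.symm
  rw [sum_congr rfl h1, ← Summable.tsum_finsetSum fun j _ =>
    (summ_z ha (om_norm hq j) hσ).mul_left _, Complex.ofReal_tsum, ← tsum_mul_left]
  refine tsum_congr fun k => ?_
  have h2 := char_sum hq c (k + 1)
  have h3 : ∑ j ∈ range q, (om q ^ j) ^ ((q - 1) * c) *
      (((a (k + 1) * Real.exp (-(σ * ((k + 1 : ℕ) : ℝ))) : ℝ) : ℂ) * (om q ^ j) ^ (k + 1)) =
      ((a (k + 1) * Real.exp (-(σ * ((k + 1 : ℕ) : ℝ))) : ℝ) : ℂ) *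
        ∑ j ∈ range q, (om q ^ j) ^ ((q - 1) * c) * (om q ^ j) ^ (k + 1) := by
    rw [mul_sum]
    exact sum_congr rfl fun j _ => by ring
  rw [h3, h2]
  unfold cls
  split_ifs
  · push_cast; ring
  · simp

lemma cls_diff (ha : ∀ k, |a k| ≤ β) {q : ℕ} (hq : q ≠ 0) (c : ℕ) {σ : ℝ}
    (hσ : 0 < σ) :
    |(q : ℝ) * SS (cls a q c) σ - SS a σ| ≤ ∑ j ∈ Ico 1 q, ‖TZ a (om q ^ j) σ‖ := by
  have h1 := cls_sum ha hq c hσ
  have h2 : TZ a (om q ^ 0) σ = (SS a σ : ℂ) := by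
    unfold TZ SS
    rw [Complex.ofReal_tsum]
    exact tsum_congr fun k => by simp
  have h3 : (((q : ℝ) * SS (cls a q c) σ - SS a σ : ℝ) : ℂ) =
      ∑ j ∈ Ico 1 q, (om q ^ j) ^ ((q - 1) * c) * TZ a (om q ^ j) σ := by
    push_cast
    rw [h1, range_eq_Ico, sum_eq_sum_Ico_succ_bot (Nat.pos_of_ne_zero hq), h2, pow_zero, one_pow,
      one_mul, zero_add]
    ring
  rw [← Real.norm_eq_abs, ← Complex.norm_real, h3]
  refine (norm_sum_le _ _).trans (sum_le_sum fun j _ => ?_)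
  rw [norm_mul, norm_pow, om_norm hq, one_pow, one_mul]

/-- **Residue classes.** -/
theorem classes (ha : ∀ k, |a k| ≤ β) {b : ℕ} (hb : 2 ≤ b) {s : ℝ}
    (H : Twisted b s a) {q : ℕ} (hq : q ≠ 0) {ε : ℝ} (hε : 0 < ε) :
    ∀ᶠ σ : ℝ in 𝓝[>] 0, (s - ε) / σ ≤ SS a σ ^ 2 ∧ ∀ c : ℕ,
      ((q : ℝ) * SS (cls a q c) σ - SS a σ) ^ 2 ≤ LL b q ^ 2 * (SS a σ ^ 2 - (s - ε) / σ) := by
  have hbR : (2 : ℝ) ≤ b := by exact_mod_cast hb
  have h1 : ∀ᶠ σ : ℝ in 𝓝[>] 0, ∀ j ∈ Ico 1 q, (s - ε) / σ + ((b : ℝ) - 1) /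
      ‖(b : ℂ) * om q ^ j - 1‖ * ‖TZ a (om q ^ j) σ‖ ^ 2 ≤ SS a σ ^ 2 := by
    rw [Filter.eventually_all_finset]
    exact fun j hj => H _ (om_norm hq j) (om_ne hq hj) ε hε
  have h2 := H (-1) (by simp) (by norm_num) ε hε
  filter_upwards [h1, h2, self_mem_nhdsWithin] with σ h1 h2 hσ
  have hσ0 : 0 < σ := hσ
  have hbase : (s - ε) / σ ≤ SS a σ ^ 2 := by
    have h3 : 0 ≤ ((b : ℝ) - 1) / ‖(b : ℂ) * (-1) - 1‖ * ‖TZ a (-1) σ‖ ^ 2 :=
      mul_nonneg (div_nonneg (by linarith) (norm_nonneg _)) (sq_nonneg _)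
    linarith
  refine ⟨hbase, fun c => ?_⟩
  have h3 := cls_diff ha hq c hσ0
  set X := SS a σ ^ 2 - (s - ε) / σ with hX
  have hX0 : 0 ≤ X := by linarith
  have h4 : ∑ j ∈ Ico 1 q, ‖TZ a (om q ^ j) σ‖ ≤ LL b q * Real.sqrt X := by
    unfold LL
    rw [sum_mul]
    refine sum_le_sum fun j hj => ?_
    have h5 := h1 j hj
    have h6 := kappa_lt hb (om_norm hq j) (om_ne hq hj)
    have hM0 : 0 < ‖(b : ℂ) * om q ^ j - 1‖ := by linarith
    rw [← Real.sqrt_mul (div_nonneg hM0.le (by linarith))]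
    apply Real.le_sqrt_of_sq_le
    rw [div_mul_eq_mul_div, le_div_iff₀ (by linarith)]
    have h7 : ((b : ℝ) - 1) / ‖(b : ℂ) * om q ^ j - 1‖ * ‖TZ a (om q ^ j) σ‖ ^ 2 ≤ X := by
      linarith
    rw [div_mul_eq_mul_div, div_le_iff₀ hM0] at h7
    linarith
  have h5 : |(q : ℝ) * SS (cls a q c) σ - SS a σ| ≤ LL b q * Real.sqrt X := h3.trans h4
  have h6 := pow_le_pow_left₀ (abs_nonneg _) h5 2
  rwa [sq_abs, mul_pow, Real.sq_sqrt hX0] at h6

/-- arithmetic for the lower bound in a class -/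
lemma class_arith {s L H : ℝ} {q : ℕ} (hs : 0 < s) (hH : 0 ≤ H)
    (hcond : (L ^ 2 - 1) * H ^ 2 < L ^ 2 * s) :
    ∃ ε c₁ : ℝ, 0 < ε ∧ 0 < c₁ ∧ ∀ f g : ℝ, 0 ≤ f → f ≤ H → s - ε ≤ f ^ 2 →
      (q * g - f) ^ 2 ≤ L ^ 2 * (f ^ 2 - (s - ε)) → c₁ ≤ g := by
  set Δ : ℝ := L ^ 2 * s - (L ^ 2 - 1) * H ^ 2 with hΔ
  have hΔ0 : 0 < Δ := by linarith
  set ε : ℝ := min (s / 2) (Δ / (4 * (L ^ 2 + 1))) with hε
  have hε0 : 0 < ε := by positivity
  have hε1 : ε ≤ s / 2 := min_le_left _ _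
  have hε2 : L ^ 2 * ε ≤ Δ / 4 := by
    have h1 : ε ≤ Δ / (4 * (L ^ 2 + 1)) := min_le_right _ _
    rw [le_div_iff₀ (by positivity)] at h1
    nlinarith
  set m : ℝ := min (min Δ s) (Real.sqrt s) with hm
  have hm0 : 0 < m := by
    have : 0 < Real.sqrt s := Real.sqrt_pos.mpr hs
    positivity
  set c₁ : ℝ := m / (8 * ((q : ℝ) + 1) * (H + 1)) with hc₁
  have hc0 : 0 < c₁ := by positivity
  have hqc : q * c₁ * (H + 1) ≤ m / 8 := by
    have h1 : c₁ * (8 * ((q : ℝ) + 1) * (H + 1)) = m := by rw [hc₁]; field_simp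
    have h2 : 0 ≤ c₁ * (H + 1) := by positivity
    nlinarith
  have hqc1 : q * c₁ ≤ m / 8 := by
    have h2 : 0 ≤ q * c₁ * H := by positivity
    linarith
  have hqc2 : q * c₁ * H ≤ m / 8 := by
    have h2 : 0 ≤ q * c₁ := by positivity
    linarith
  have hmΔ : m ≤ Δ := (min_le_left _ _).trans (min_le_left _ _)
  have hms : m ≤ s := (min_le_left _ _).trans (min_le_right _ _)
  have hmr : m ≤ Real.sqrt s := min_le_right _ _
  refine ⟨ε, c₁, hε0, hc0, fun f g hf0 hfH hf2 h => ?_⟩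
  by_contra hcon
  push Not at hcon
  have hfs : s / 2 ≤ f ^ 2 := by linarith
  -- `q c₁ ≤ f`
  have h1 : q * c₁ ≤ f := by
    have e1 : (q * c₁) ^ 2 ≤ f ^ 2 := by
      have e2 : (q * c₁) ^ 2 ≤ (Real.sqrt s / 8) ^ 2 :=
        pow_le_pow_left₀ (by positivity) (by linarith) 2
      rw [div_pow, Real.sq_sqrt hs.le] at e2
      linarith
    exact le_of_sq_le_sq e1 hf0
  have hqg : q * g ≤ q * c₁ := mul_le_mul_of_nonneg_left hcon.le (Nat.cast_nonneg _)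
  have h2 : (f - q * c₁) ^ 2 ≤ (f - q * g) ^ 2 :=
    pow_le_pow_left₀ (by linarith) (by linarith) 2
  have h3 : (f - q * c₁) ^ 2 ≤ L ^ 2 * (f ^ 2 - (s - ε)) := by
    refine h2.trans (le_trans (le_of_eq ?_) h)
    ring
  have h4 : q * c₁ * f ≤ m / 8 := by
    have : q * c₁ * f ≤ q * c₁ * H := mul_le_mul_of_nonneg_left hfH (by positivity)
    linarith
  have h5 : L ^ 2 * (s - ε) ≤ (L ^ 2 - 1) * f ^ 2 + 2 * (q * c₁ * f) := by
    have e1 : (f - q * c₁) ^ 2 = f ^ 2 - 2 * (q * c₁ * f) + (q * c₁) ^ 2 := by ring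
    have e2 := sq_nonneg (q * c₁)
    rw [e1] at h3
    linarith
  rcases le_or_gt 1 (L ^ 2) with hL | hL
  · have e1 : f ^ 2 ≤ H ^ 2 := pow_le_pow_left₀ hf0 hfH 2
    have e2 : (L ^ 2 - 1) * f ^ 2 ≤ (L ^ 2 - 1) * H ^ 2 :=
      mul_le_mul_of_nonneg_left e1 (by linarith)
    linarith
  · have e1 : (L ^ 2 - 1) * f ^ 2 ≤ (L ^ 2 - 1) * (s - ε) :=
      mul_le_mul_of_nonpos_left hf2 (by linarith)
    linarith

/-- **Counting.** -/
theorem counting (ha0 : ∀ k, 0 ≤ a k) (ha : ∀ k, |a k| ≤ β) {b : ℕ} (hb : 2 ≤ b) {s : ℝ}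
    (hs : 0 < s) (H : Twisted b s a) {q : ℕ} (hq : q ≠ 0) {α : ℝ}
    (hN : ∀ᶠ n : ℕ in atTop, ∑ k ∈ Icc 1 n, a k ≤ α * Real.sqrt n)
    (hα : (LL b q ^ 2 - 1) * (α ^ 2 * (Real.pi / 4)) < LL b q ^ 2 * s) (c : ℕ) :
    ∃ c' : ℝ, 0 < c' ∧ ∀ᶠ n : ℕ in atTop, c' * Real.sqrt n ≤ ∑ k ∈ Icc 1 n, cls a q c k := by
  -- `α ≥ 0`
  have hα0 : 0 ≤ α := by
    obtain ⟨n, h1, h2⟩ := (hN.and (eventually_ge_atTop 1)).exists
    have h3 : 0 < Real.sqrt (n : ℝ) := Real.sqrt_pos.mpr (by exact_mod_cast h2)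
    have h4 : 0 ≤ ∑ k ∈ Icc 1 n, a k := sum_nonneg fun k _ => ha0 k
    by_contra hcon
    push Not at hcon
    have := mul_neg_of_neg_of_pos hcon h3
    linarith
  -- a bound for all `n`
  obtain ⟨C, hC0, hC⟩ : ∃ C : ℝ, 0 ≤ C ∧ ∀ n : ℕ, ∑ k ∈ Icc 1 n, a k ≤ C + α * Real.sqrt n := by
    obtain ⟨n₀, h1⟩ := eventually_atTop.mp hN
    refine ⟨∑ k ∈ Icc 1 n₀, a k, sum_nonneg fun k _ => ha0 k, fun n => ?_⟩
    have h3 : 0 ≤ α * Real.sqrt n := mul_nonneg hα0 (Real.sqrt_nonneg _)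
    rcases le_or_gt n₀ n with h | h
    · have := h1 n h
      have h4 : 0 ≤ ∑ k ∈ Icc 1 n₀, a k := sum_nonneg fun k _ => ha0 k
      linarith
    · have h4 : ∑ k ∈ Icc 1 n, a k ≤ ∑ k ∈ Icc 1 n₀, a k :=
        sum_le_sum_of_subset_of_nonneg (Icc_subset_Icc_right h.le) fun k _ _ => ha0 k
      linarith
  -- a slightly larger constant
  set H₀ : ℝ := α * (Real.sqrt Real.pi / 2) with hH₀
  have hH₀0 : 0 ≤ H₀ := by positivity
  have hH₀2 : H₀ ^ 2 = α ^ 2 * (Real.pi / 4) := by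
    rw [hH₀, mul_pow, div_pow, Real.sq_sqrt Real.pi_pos.le]
    ring
  obtain ⟨η, hη0, hη⟩ : ∃ η : ℝ, 0 < η ∧
      (LL b q ^ 2 - 1) * (H₀ + η) ^ 2 < LL b q ^ 2 * s := by
    have hcont : ContinuousAt (fun η : ℝ => (LL b q ^ 2 - 1) * (H₀ + η) ^ 2) 0 := by fun_prop
    have h1 : (LL b q ^ 2 - 1) * (H₀ + 0) ^ 2 < LL b q ^ 2 * s := by
      rw [add_zero, hH₀2]; exact hα
    have h2 := hcont.eventually_lt continuousAt_const h1
    obtain ⟨δ, hδ, hball⟩ := Metric.eventually_nhds_iff.mp h2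
    refine ⟨δ / 2, by positivity, hball ?_⟩
    rw [Real.dist_eq, sub_zero, abs_of_pos (by positivity)]
    linarith
  obtain ⟨ε, c₁, hε, hc₁, harith⟩ := class_arith (q := q) hs (by positivity : 0 ≤ H₀ + η) hη
  -- the upper bound for the sum
  have hup : ∀ σ : ℝ, 0 < σ → Real.sqrt σ * SS a σ ≤ C * Real.sqrt σ + H₀ := by
    intro σ hσ
    have h1 := upper ha0 hC0 hα0 hC hσ
    have h2 : 0 < Real.sqrt σ := Real.sqrt_pos.mpr hσ
    have h3 := mul_le_mul_of_nonneg_left h1 h2.le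
    rw [← hH₀] at h3
    have h4 : Real.sqrt σ * (C + H₀ / Real.sqrt σ) = C * Real.sqrt σ + H₀ := by
      field_simp
    linarith
  -- the lower bound in the class
  have hlow : ∀ᶠ σ : ℝ in 𝓝[>] 0, c₁ ≤ Real.sqrt σ * SS (cls a q c) σ := by
    have h1 := classes ha hb H hq hε
    have h2 : ∀ᶠ σ : ℝ in 𝓝[>] 0, C * Real.sqrt σ < η := by
      have h3 : Tendsto (fun σ : ℝ => C * Real.sqrt σ) (𝓝[>] 0) (𝓝 (C * Real.sqrt 0)) :=
        ((Real.continuous_sqrt.tendsto 0).const_mul C).mono_left nhdsWithin_le_nhds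
      rw [Real.sqrt_zero, mul_zero] at h3
      exact h3.eventually_lt_const hη0
    filter_upwards [h1, h2, self_mem_nhdsWithin] with σ h1 h2 hσ
    have hσ0 : 0 < σ := hσ
    have hρ : Real.sqrt σ ^ 2 = σ := Real.sq_sqrt hσ0.le
    obtain ⟨h3, h4⟩ := h1
    refine harith (Real.sqrt σ * SS a σ) (Real.sqrt σ * SS (cls a q c) σ)
      (mul_nonneg (Real.sqrt_nonneg _) (SS_nonneg ha0 σ)) ?_ ?_ ?_
    · linarith [hup σ hσ0]
    · rw [mul_pow, hρ]
      rw [div_le_iff₀ hσ0] at h3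
      linarith
    · have h5 := mul_le_mul_of_nonneg_left (h4 c) hσ0.le
      have e1 : ((q : ℝ) * (Real.sqrt σ * SS (cls a q c) σ) - Real.sqrt σ * SS a σ) ^ 2 =
          Real.sqrt σ ^ 2 * ((q : ℝ) * SS (cls a q c) σ - SS a σ) ^ 2 := by ring
      have e2 : LL b q ^ 2 * ((Real.sqrt σ * SS a σ) ^ 2 - (s - ε)) =
          σ * (LL b q ^ 2 * (SS a σ ^ 2 - (s - ε) / σ)) := by
        rw [mul_pow, hρ]
        field_simp
      rw [e1, e2, hρ]
      exact h5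
  -- the tail
  have htail : ∀ n : ℕ, ∀ σ : ℝ, 0 < σ → SS (cls a q c) σ ≤
      ∑ k ∈ Icc 1 n, cls a q c k + Real.exp (-(σ * n / 2)) * SS a (σ / 2) := by
    intro n σ hσ
    have hσ2 : 0 < σ / 2 := by positivity
    have hs1 := summ (cls_abs ha0 ha q c) hσ
    have hs2 := (summ ha hσ2).mul_left (Real.exp (-(σ * n / 2)))
    have hfin : Summable fun k : ℕ => if k < n then cls a q c (k + 1) else 0 := by
      refine summable_of_ne_finset_zero (s := range n) fun k hk => ?_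
      rw [if_neg (by simpa using hk)]
    have h1 : ∀ k : ℕ, cls a q c (k + 1) * Real.exp (-(σ * ((k + 1 : ℕ) : ℝ))) ≤
        (if k < n then cls a q c (k + 1) else 0) + Real.exp (-(σ * n / 2)) *
          (a (k + 1) * Real.exp (-(σ / 2 * ((k + 1 : ℕ) : ℝ)))) := by
      intro k
      have e0 := cls_nonneg ha0 q c (k + 1)
      have e1 := cls_le ha0 q c (k + 1)
      have e2 : 0 ≤ Real.exp (-(σ * n / 2)) *
          (a (k + 1) * Real.exp (-(σ / 2 * ((k + 1 : ℕ) : ℝ)))) := by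
        have := ha0 (k + 1)
        positivity
      split_ifs with hk
      · have e3 : Real.exp (-(σ * ((k + 1 : ℕ) : ℝ))) ≤ 1 := by
          apply Real.exp_le_one_iff.mpr
          have : (0 : ℝ) ≤ ((k + 1 : ℕ) : ℝ) := Nat.cast_nonneg _
          nlinarith
        have e4 := mul_le_mul_of_nonneg_left e3 e0
        linarith
      · have e3 : Real.exp (-(σ * ((k + 1 : ℕ) : ℝ))) ≤
            Real.exp (-(σ * n / 2)) * Real.exp (-(σ / 2 * ((k + 1 : ℕ) : ℝ))) := by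
          rw [← Real.exp_add]
          apply Real.exp_le_exp.mpr
          have e5 : (n : ℝ) ≤ ((k + 1 : ℕ) : ℝ) := by
            exact_mod_cast (by omega : n ≤ k + 1)
          nlinarith
        rw [zero_add]
        calc cls a q c (k + 1) * Real.exp (-(σ * ((k + 1 : ℕ) : ℝ)))
            ≤ a (k + 1) * (Real.exp (-(σ * n / 2)) *
              Real.exp (-(σ / 2 * ((k + 1 : ℕ) : ℝ)))) :=
              mul_le_mul e1 e3 (Real.exp_pos _).le (ha0 _)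
          _ = _ := by ring
    have h2 := Summable.tsum_le_tsum h1 hs1 (hfin.add hs2)
    rw [hfin.tsum_add hs2, tsum_mul_left] at h2
    have h3 : ∑' k : ℕ, (if k < n then cls a q c (k + 1) else 0) = ∑ k ∈ Icc 1 n, cls a q c k := by
      rw [tsum_eq_sum (s := range n) fun k hk => if_neg (by simpa using hk)]
      rw [sum_congr rfl fun k hk => if_pos (mem_range.mp hk)]
      rw [range_eq_Ico, sum_Ico_add' (fun k => cls a q c k) 0 n 1]
      rfl
    rw [h3] at h2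
    exact h2
  -- the choice of `σ`
  obtain ⟨l, hl⟩ := exists_nat_gt (max 1 (4 * (C + H₀ + 1) / c₁))
  have hl1 : (1 : ℝ) < l := lt_of_le_of_lt (le_max_left _ _) hl
  have hl2 : 4 * (C + H₀ + 1) / c₁ < l := lt_of_le_of_lt (le_max_right _ _) hl
  set lam : ℝ := 2 * l with hlam
  have hlam0 : 0 < lam := by positivity
  have hexp : Real.exp (-(lam / 2)) * (2 * (C + H₀ + 1)) ≤ c₁ / 2 := by
    have e1 : Real.exp (-(lam / 2)) ≤ 1 / l := by
      rw [Real.exp_neg, ← one_div]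
      apply one_div_le_one_div_of_le (by linarith)
      have := Real.add_one_le_exp (lam / 2)
      rw [hlam] at this ⊢
      have e3 : 2 * (l : ℝ) / 2 = l := by ring
      rw [e3] at this ⊢
      linarith
    have e2 : 2 * (C + H₀ + 1) / l ≤ c₁ / 2 := by
      rw [div_lt_iff₀ hc₁] at hl2
      rw [div_le_iff₀ (by linarith)]
      linarith
    calc Real.exp (-(lam / 2)) * (2 * (C + H₀ + 1)) ≤ 1 / l * (2 * (C + H₀ + 1)) :=
          mul_le_mul_of_nonneg_right e1 (by positivity)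
      _ = 2 * (C + H₀ + 1) / l := by ring
      _ ≤ _ := e2
  refine ⟨c₁ / 2 / Real.sqrt lam, by positivity, ?_⟩
  have htend : Tendsto (fun n : ℕ => lam / n) atTop (𝓝[>] 0) := by
    rw [tendsto_nhdsWithin_iff]
    refine ⟨tendsto_const_div_atTop_nhds_zero_nat lam, ?_⟩
    filter_upwards [eventually_gt_atTop 0] with n hn
    have : (0 : ℝ) < n := by exact_mod_cast hn
    exact div_pos hlam0 this
  filter_upwards [htend.eventually hlow, eventually_ge_atTop (2 * l + 1), eventually_gt_atTop 0]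
    with n h1 hn hn0
  have hnR : (0 : ℝ) < n := by exact_mod_cast hn0
  set σ : ℝ := lam / n with hσd
  have hσ : 0 < σ := div_pos hlam0 hnR
  have hσ1 : σ ≤ 1 := by
    rw [hσd, div_le_one hnR, hlam]
    have : ((2 * l : ℕ) : ℝ) ≤ n := by exact_mod_cast (by omega : 2 * l ≤ n)
    push_cast at this
    exact this
  have hρ0 : 0 < Real.sqrt σ := Real.sqrt_pos.mpr hσ
  have hσn : σ * n / 2 = lam / 2 := by rw [hσd]; field_simp
  have h2 := htail n σ hσ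
  rw [hσn] at h2
  have h3 := hup (σ / 2) (by positivity)
  -- `√σ S(σ / 2) ≤ 2 (C + H₀ + 1)`
  have h4 : Real.sqrt σ * SS a (σ / 2) ≤ 2 * (C + H₀ + 1) := by
    have e1 : Real.sqrt σ ≤ 2 * Real.sqrt (σ / 2) := by
      apply Real.sqrt_le_iff.mpr
      refine ⟨by positivity, ?_⟩
      rw [mul_pow, Real.sq_sqrt (by positivity)]
      linarith
    have e2 := mul_le_mul_of_nonneg_right e1 (SS_nonneg ha0 (σ / 2))
    have e3 : C * Real.sqrt (σ / 2) ≤ C * 1 := by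
      apply mul_le_mul_of_nonneg_left _ hC0
      rw [Real.sqrt_le_one]
      linarith
    linarith
  have h5 := mul_le_mul_of_nonneg_left h2 hρ0.le
  have h6 : Real.sqrt σ * (∑ k ∈ Icc 1 n, cls a q c k + Real.exp (-(lam / 2)) * SS a (σ / 2)) =
      Real.sqrt σ * ∑ k ∈ Icc 1 n, cls a q c k +
        Real.exp (-(lam / 2)) * (Real.sqrt σ * SS a (σ / 2)) := by ring
  rw [h6] at h5
  have h7 := mul_le_mul_of_nonneg_left h4 (Real.exp_pos (-(lam / 2))).le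
  have h8 : c₁ / 2 ≤ Real.sqrt σ * ∑ k ∈ Icc 1 n, cls a q c k := by linarith
  have h9 : Real.sqrt σ = Real.sqrt lam / Real.sqrt n := by
    rw [hσd, Real.sqrt_div hlam0.le]
  have hsn : 0 < Real.sqrt (n : ℝ) := Real.sqrt_pos.mpr hnR
  have hsl : 0 < Real.sqrt lam := Real.sqrt_pos.mpr hlam0
  rw [h9, div_mul_eq_mul_div, le_div_iff₀ hsn] at h8
  rw [div_mul_eq_mul_div, div_le_iff₀ hsl]
  linarith

end

end Run7.h53.TW
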