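import Pool.Agent.W288.LM.Fin

/-!
# Weighted and twisted inequalities for the digits of quadratic irrationals
-/

set_option autoImplicit false
set_option linter.unusedSectionVars false

open Finset

namespace Run7.h53.TW

open Pool.Agent.H394R2.Ones Pool.Agent.H820R3.DG Pool.Agent.W288.LM

section
variable {b : ℕ} {y : ℝ}

/-- summation by parts for arbitrary weights -/
lemma T_sum_v (hb : 2 ≤ b) (hy0 : 0 < y) (hy1 : y < 1) (hirr : Irrational y) (n : ℕ) (v : ℕ → ℝ)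
    (hv : ∀ m, 0 ≤ v m) :
    ∑ m ∈ range n, T b y m * (b * v (m + 1) - v m) ≤
      ∑ m ∈ range (n + 1), (r b y m : ℝ) * v m + T b y n * v n := by
  have h1 : ∑ m ∈ range n, T b y (m + 1) * v (m + 1) =
      ∑ m ∈ range n, T b y m * (b * v (m + 1)) -
        ∑ m ∈ range n, (r b y (m + 1) : ℝ) * v (m + 1) := by
    rw [← sum_sub_distrib]
    refine sum_congr rfl fun m _ => ?_
    rw [T_succ hb hy0 hy1]
    ring
  have h2 : ∑ m ∈ range n, T b y (m + 1) * v (m + 1) + T b y 0 * v 0 =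
      ∑ m ∈ range n, T b y m * v m + T b y n * v n := by
    rw [← sum_range_succ (fun m => T b y m * v m),
      sum_range_succ' (fun m => T b y m * v m)]
  have h3 : ∑ m ∈ range n, (r b y (m + 1) : ℝ) * v (m + 1) ≤
      ∑ m ∈ range (n + 1), (r b y m : ℝ) * v m := by
    rw [sum_range_succ' (fun m => (r b y m : ℝ) * v m)]
    refine le_add_of_nonneg_right ?_
    exact mul_nonneg (Nat.cast_nonneg _) (hv 0)
  have h4 : 0 ≤ T b y 0 * v 0 := mul_nonneg (T_pos hb hy0 hy1 hirr 0).le (hv 0)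
  have h5 : ∑ m ∈ range n, T b y m * (b * v (m + 1) - v m) =
      ∑ m ∈ range n, T b y m * (b * v (m + 1)) - ∑ m ∈ range n, T b y m * v m := by
    rw [← sum_sub_distrib]
    refine sum_congr rfl fun m _ => ?_
    ring
  rw [h5]
  linarith

lemma w_sum (n : ℕ) (β : ℝ) (v : ℕ → ℝ) :
    ∑ m ∈ range n, (β * v (m + 1) - v m) = (β - 1) * ∑ m ∈ range n, v m + β * (v n - v 0) := by
  induction n with
  | zero => simp
  | succ n ih => rw [sum_range_succ, sum_range_succ, ih]; ring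

/-- lower bound for the weighted sum of the numbers of representations -/
lemma r_lower (hb : 2 ≤ b) (hy0 : 0 < y) (hy1 : y < 1) (hirr : Irrational y) {A B C : ℤ}
    (hA : 0 < A) (hq : (A : ℝ) * y ^ 2 + B * y + C = 0) (n : ℕ) (v : ℕ → ℝ)
    (hv : ∀ m, 0 ≤ v m) (hv2 : ∀ m, v m ≤ b * v (m + 1)) :
    ((Int.gcd b (2 * A) : ℕ) : ℝ) / A * (((b : ℝ) - 1) * ∑ m ∈ range n, v m + b * (v n - v 0)) -
      ∑ m ∈ range n, dd b y (((Int.gcd b (2 * A) : ℕ) : ℝ) / A) |(B : ℝ)| m *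
        (b * v (m + 1) - v m) ≤
      ∑ m ∈ range (n + 1), (r b y m : ℝ) * v m + (K b y n + 1) * v n := by
  have h1 := T_sum_v hb hy0 hy1 hirr n v hv
  have h2 : T b y n * v n ≤ (K b y n + 1) * v n :=
    mul_le_mul_of_nonneg_right (T_le hb hy0 hy1 n) (hv n)
  have h3 : ∑ m ∈ range n, (((Int.gcd b (2 * A) : ℕ) : ℝ) / A -
      dd b y (((Int.gcd b (2 * A) : ℕ) : ℝ) / A) |(B : ℝ)| m) * (b * v (m + 1) - v m) ≤
      ∑ m ∈ range n, T b y m * (b * v (m + 1) - v m) :=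
    sum_le_sum fun m _ => mul_le_mul_of_nonneg_right
      (T_lower' hb hy0 hy1 hirr hA hq m) (by linarith [hv2 m])
  have h4 : ∑ m ∈ range n, (((Int.gcd b (2 * A) : ℕ) : ℝ) / A -
      dd b y (((Int.gcd b (2 * A) : ℕ) : ℝ) / A) |(B : ℝ)| m) * (b * v (m + 1) - v m) =
      ((Int.gcd b (2 * A) : ℕ) : ℝ) / A * (((b : ℝ) - 1) * ∑ m ∈ range n, v m + b * (v n - v 0)) -
      ∑ m ∈ range n, dd b y (((Int.gcd b (2 * A) : ℕ) : ℝ) / A) |(B : ℝ)| m *
        (b * v (m + 1) - v m) := by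
    rw [← w_sum, mul_sum, ← sum_sub_distrib]
    refine sum_congr rfl fun m _ => ?_
    ring
  rw [h4] at h3
  linarith

lemma isAlg {A B C : ℤ} (hA : 0 < A) (hq : (A : ℝ) * y ^ 2 + B * y + C = 0) :
    IsAlgebraic ℚ y := by
  refine ⟨Polynomial.C (A : ℚ) * Polynomial.X ^ 2 + Polynomial.C (B : ℚ) * Polynomial.X +
    Polynomial.C (C : ℚ), ?_, ?_⟩
  · intro h
    have h1 := congrArg (fun p => Polynomial.coeff p 2) h
    simp only [Polynomial.coeff_add, Polynomial.coeff_C_mul, Polynomial.coeff_X_pow,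
      Polynomial.coeff_X, Polynomial.coeff_C, Polynomial.coeff_zero] at h1
    norm_num at h1
    omega
  · simp only [map_add, map_mul, map_pow, Polynomial.aeval_X, Polynomial.aeval_C]
    simpa using hq

/-- **The inequality for all weights.** -/
theorem weights (hb : 2 ≤ b) (hy0 : 0 < y) (hy1 : y < 1) (hirr : Irrational y) {A B C : ℤ}
    (hA : 0 < A) (hq : (A : ℝ) * y ^ 2 + B * y + C = 0) (δ : ℝ) (hδ : 0 < δ) :
    ∃ C₀ : ℝ, 0 ≤ C₀ ∧ ∀ n : ℕ, ∀ v : ℕ → ℝ, (∀ m, 0 ≤ v m) → (∀ m, v m ≤ 1) →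
      (∀ m, v m ≤ b * v (m + 1)) →
      (((b : ℝ) - 1) * (((Int.gcd b (2 * A) : ℕ) : ℝ) / A)) * ∑ m ∈ range n, v m ≤
        ∑ m ∈ range (n + 1), (r b y m : ℝ) * v m + δ * n + C₀ * (K b y n + 1) := by
  have hbR : (2 : ℝ) ≤ b := by exact_mod_cast hb
  have hAR : (1 : ℝ) ≤ A := by exact_mod_cast hA
  have halg := isAlg hA hq
  set τ : ℝ := ((Int.gcd b (2 * A) : ℕ) : ℝ) / A with hτ
  have hτ0 : 0 ≤ τ := by positivity
  have hB0 : 0 ≤ |(B : ℝ)| := abs_nonneg _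
  have hδ' : 0 < min (1 / 4) (δ / (b * τ + 1)) := by positivity
  obtain ⟨C2, hC20, hC2⟩ := dd_sum hb hy0 hy1 hirr halg τ |(B : ℝ)| _ hτ0 hB0 hδ'
    (min_le_left _ _)
  set δ' := min (1 / 4) (δ / (b * τ + 1)) with hδ'd
  have hδ2 : b * τ * δ' ≤ δ := by
    have h1 : δ' ≤ δ / (b * τ + 1) := min_le_right _ _
    rw [le_div_iff₀ (by positivity)] at h1
    nlinarith [hδ'.le]
  refine ⟨b * C2 + b * τ + 1, by positivity, fun n v hv hv1 hv2 => ?_⟩
  have h1 := r_lower hb hy0 hy1 hirr hA hq n v hv hv2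
  rw [← hτ] at h1
  have hK : (0 : ℝ) ≤ K b y n := Nat.cast_nonneg _
  have h2 : ∑ m ∈ range n, dd b y τ |(B : ℝ)| m * (b * v (m + 1) - v m) ≤
      b * (C2 * (K b y n + 1) + τ * δ' * n) := by
    refine le_trans ?_ (mul_le_mul_of_nonneg_left (hC2 n) (by positivity))
    rw [mul_sum]
    refine sum_le_sum fun m _ => ?_
    have e1 := hv m
    have e2 := hv1 (m + 1)
    have e3 : b * v (m + 1) - v m ≤ b := by nlinarith
    have e4 := mul_le_mul_of_nonneg_left e3 (dd_nonneg (b := b) hy0 hτ0 hB0 m)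
    linarith
  have h3 : (K b y n + 1) * v n ≤ (K b y n : ℝ) + 1 := by
    have := mul_le_mul_of_nonneg_left (hv1 n) (by positivity : (0 : ℝ) ≤ K b y n + 1)
    linarith
  have h4 : -(b * τ) ≤ τ * (b * (v n - v 0)) := by
    have e1 := hv n
    have e2 := hv1 0
    have e3 : 0 ≤ b * τ := by positivity
    have e4 : -1 ≤ v n - v 0 := by linarith
    have e5 := mul_le_mul_of_nonneg_left e4 e3
    calc -(b * τ) = b * τ * (-1) := by ring
      _ ≤ b * τ * (v n - v 0) := e5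
      _ = τ * (b * (v n - v 0)) := by ring
  have h5 : b * (τ * δ' * n) ≤ δ * n := by
    have e1 : (0 : ℝ) ≤ n := Nat.cast_nonneg _
    have := mul_le_mul_of_nonneg_right hδ2 e1
    calc b * (τ * δ' * n) = b * τ * δ' * n := by ring
      _ ≤ δ * n := this
  have h6 : 0 ≤ b * τ * K b y n := by positivity
  nlinarith

end

end Run7.h53.TW
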