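import Pool.Agent.Run7.h53.TW.Twist

/-!
# Twisted inequalities: infinite sums, residue classes, counting
-/

set_option autoImplicit false
set_option linter.unusedSectionVars false

open Finset Filter Topology

namespace Run7.h53.TW

/-- the sum of `a_k z^k exp (-σ k)` over `k ≥ 1` -/
noncomputable def TZ (a : ℕ → ℝ) (z : ℂ) (σ : ℝ) : ℂ :=
  ∑' k : ℕ, ((a (k + 1) * Real.exp (-(σ * ((k + 1 : ℕ) : ℝ))) : ℝ) : ℂ) * z ^ (k + 1)

/-- the sum of `a_k exp (-σ k)` over `k ≥ 1` -/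
noncomputable def SS (a : ℕ → ℝ) (σ : ℝ) : ℝ :=
  ∑' k : ℕ, a (k + 1) * Real.exp (-(σ * ((k + 1 : ℕ) : ℝ)))

lemma summ_exp {σ : ℝ} (hσ : 0 < σ) :
    Summable fun k : ℕ => Real.exp (-(σ * ((k + 1 : ℕ) : ℝ))) := by
  have h1 : Summable fun k : ℕ => Real.exp (-σ) ^ (k + 1) :=
    (summable_nat_add_iff 1).mpr (summable_geometric_of_lt_one (Real.exp_pos _).le
      (by rw [← Real.exp_zero]; exact Real.exp_lt_exp.mpr (by linarith)))
  refine h1.congr fun k => ?_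
  rw [← Real.exp_nat_mul]
  congr 1
  ring

section
variable {a : ℕ → ℝ} {β : ℝ}

lemma summ (ha : ∀ k, |a k| ≤ β) {σ : ℝ} (hσ : 0 < σ) :
    Summable fun k : ℕ => a (k + 1) * Real.exp (-(σ * ((k + 1 : ℕ) : ℝ))) := by
  refine Summable.of_norm_bounded ((summ_exp hσ).mul_left β) fun k => ?_
  rw [norm_mul, Real.norm_eq_abs, Real.norm_eq_abs, abs_of_pos (Real.exp_pos _)]
  exact mul_le_mul_of_nonneg_right (ha _) (Real.exp_pos _).le

lemma summ_z (ha : ∀ k, |a k| ≤ β) {z : ℂ} (hz : ‖z‖ = 1) {σ : ℝ} (hσ : 0 < σ) :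
    Summable fun k : ℕ =>
      ((a (k + 1) * Real.exp (-(σ * ((k + 1 : ℕ) : ℝ))) : ℝ) : ℂ) * z ^ (k + 1) := by
  refine Summable.of_norm_bounded ((summ_exp hσ).mul_left β) fun k => ?_
  rw [norm_mul, norm_pow, hz, one_pow, mul_one, Complex.norm_real, norm_mul, Real.norm_eq_abs,
    Real.norm_eq_abs, abs_of_pos (Real.exp_pos _)]
  exact mul_le_mul_of_nonneg_right (ha _) (Real.exp_pos _).le

lemma SS_nonneg (ha0 : ∀ k, 0 ≤ a k) (σ : ℝ) : 0 ≤ SS a σ :=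
  tsum_nonneg fun _ => mul_nonneg (ha0 _) (Real.exp_pos _).le

lemma TZ_le (ha0 : ∀ k, 0 ≤ a k) (ha : ∀ k, |a k| ≤ β) {z : ℂ} (hz : ‖z‖ = 1) {σ : ℝ}
    (hσ : 0 < σ) : ‖TZ a z σ‖ ≤ SS a σ := by
  unfold TZ SS
  refine tsum_of_norm_bounded (summ ha hσ).hasSum fun k => ?_
  rw [norm_mul, norm_pow, hz, one_pow, mul_one, Complex.norm_real, Real.norm_eq_abs,
    abs_of_nonneg (mul_nonneg (ha0 _) (Real.exp_pos _).le)]

/-- The twisted inequality for the sequence `a`, with base `b` and constant `s`. -/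
def Twisted (b : ℕ) (s : ℝ) (a : ℕ → ℝ) : Prop :=
  ∀ z : ℂ, ‖z‖ = 1 → z ≠ 1 → ∀ ε : ℝ, 0 < ε → ∀ᶠ σ : ℝ in 𝓝[>] 0,
    (s - ε) / σ + ((b : ℝ) - 1) / ‖(b : ℂ) * z - 1‖ * ‖TZ a z σ‖ ^ 2 ≤ SS a σ ^ 2

lemma absorb {s κ δ C₀ ε : ℝ} (hs : 0 ≤ s) (hκ0 : 0 ≤ κ) (hκ1 : κ < 1) (hε : 0 < ε)
    (hδ : s * δ ≤ ε / 2) (hC : 0 ≤ C₀) :
    ∃ σ₀ : ℝ, 0 < σ₀ ∧ σ₀ ≤ 1 / 2 ∧ ∀ σ f G : ℝ, 0 < σ → σ < σ₀ → 0 ≤ G → G ≤ f →
      s * (1 - δ) / σ + κ * G ^ 2 ≤ f ^ 2 + C₀ * (1 + f) → (s - ε) / σ + κ * G ^ 2 ≤ f ^ 2 := by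
  set M : ℝ := Real.sqrt (s / (1 - κ)) with hM
  have hM0 : 0 ≤ M := Real.sqrt_nonneg _
  have h1κ : 0 < 1 - κ := by linarith
  have hM2 : M ^ 2 * (1 - κ) = s := by
    rw [hM, Real.sq_sqrt (by positivity)]
    field_simp
  set e : ℝ := ε / (2 * (C₀ * (1 + M) + 1)) with he
  have he0 : 0 < e := by positivity
  refine ⟨min (1 / 2) (e ^ 2), by positivity, min_le_left _ _, fun σ f G hσ hσ1 hG0 hGf h => ?_⟩
  have hf0 : 0 ≤ f := hG0.trans hGf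
  have hG2 : G ^ 2 ≤ f ^ 2 := pow_le_pow_left₀ hG0 hGf 2
  set ρ := Real.sqrt σ with hρ
  have hρ0 : 0 < ρ := Real.sqrt_pos.mpr hσ
  have hρ2 : ρ ^ 2 = σ := Real.sq_sqrt hσ.le
  rcases le_or_gt M (f * ρ) with hc | hc
  · have h1 : M ^ 2 ≤ (f * ρ) ^ 2 := pow_le_pow_left₀ hM0 hc 2
    have h2 : s ≤ (1 - κ) * f ^ 2 * σ := by
      rw [mul_pow, hρ2] at h1
      nlinarith
    have h3 : (s - ε) / σ ≤ (1 - κ) * f ^ 2 := by
      rw [div_le_iff₀ hσ]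
      linarith
    have h4 : κ * G ^ 2 ≤ κ * f ^ 2 := mul_le_mul_of_nonneg_left hG2 hκ0
    linarith
  · have hρe : ρ < e := by
      have h1 : ρ ^ 2 < e ^ 2 := by rw [hρ2]; exact lt_of_lt_of_le hσ1 (min_le_right _ _)
      exact lt_of_pow_lt_pow_left₀ 2 he0.le h1
    have hρ1 : ρ ≤ 1 := by
      have h1 : ρ ^ 2 ≤ 1 ^ 2 := by
        rw [hρ2]
        have := lt_of_lt_of_le hσ1 (min_le_left _ _)
        linarith
      exact le_of_sq_le_sq h1 zero_le_one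
    -- `C₀ (1 + f) σ ≤ ε / 2`
    have h2 : C₀ * (1 + f) * σ ≤ ε / 2 := by
      have e1 : (1 + f) * σ ≤ (1 + M) * ρ := by
        have e2 : (1 + f) * σ = (ρ + f * ρ) * ρ := by rw [← hρ2]; ring
        rw [e2]
        exact mul_le_mul_of_nonneg_right (by linarith) hρ0.le
      have e3 : (1 + M) * ρ ≤ (1 + M) * e := mul_le_mul_of_nonneg_left hρe.le (by linarith)
      have e4 : C₀ * ((1 + f) * σ) ≤ C₀ * ((1 + M) * e) :=
        mul_le_mul_of_nonneg_left (e1.trans e3) hC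
      have e5 : C₀ * ((1 + M) * e) ≤ ε / 2 := by
        have e6 : e * (2 * (C₀ * (1 + M) + 1)) = ε := by rw [he]; field_simp
        nlinarith
      calc C₀ * (1 + f) * σ = C₀ * ((1 + f) * σ) := by ring
        _ ≤ _ := e4.trans e5
    have h3 : C₀ * (1 + f) ≤ ε / 2 / σ := by rw [le_div_iff₀ hσ]; exact h2
    have h4 : (s - ε) / σ + ε / 2 / σ ≤ s * (1 - δ) / σ := by
      rw [← add_div]
      exact div_le_div_of_nonneg_right (by linarith) hσ.le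
    linarith

lemma kappa_lt {b : ℕ} (hb : 2 ≤ b) {z : ℂ} (hz : ‖z‖ = 1) (hz1 : z ≠ 1) :
    (b : ℝ) - 1 < ‖(b : ℂ) * z - 1‖ := by
  have hbR : (2 : ℝ) ≤ b := by exact_mod_cast hb
  have h1 : z.re ^ 2 + z.im ^ 2 = 1 := by
    have h2 := Complex.sq_norm z
    rw [hz, Complex.normSq_apply] at h2
    linarith [h2]
  have hc : z.re < 1 := by
    rcases lt_or_eq_of_le ((Complex.re_le_norm z).trans hz.le) with h | h
    · exact h
    · exfalso
      apply hz1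
      apply Complex.ext
      · rw [h]; rfl
      · have : z.im ^ 2 = 0 := by rw [h] at h1; linarith
        rw [pow_eq_zero_iff two_ne_zero] at this
        rw [this]; rfl
  have h2 : ‖(b : ℂ) * z - 1‖ ^ 2 = (b : ℝ) ^ 2 - 2 * b * z.re + 1 := by
    rw [Complex.sq_norm, Complex.normSq_apply]
    simp only [Complex.sub_re, Complex.mul_re, Complex.natCast_re, Complex.natCast_im, zero_mul,
      sub_zero, Complex.one_re, Complex.sub_im, Complex.mul_im, add_zero, Complex.one_im]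
    linear_combination (b : ℝ) ^ 2 * h1
  have h3 : ((b : ℝ) - 1) ^ 2 < ‖(b : ℂ) * z - 1‖ ^ 2 := by
    rw [h2]
    nlinarith
  exact lt_of_pow_lt_pow_left₀ 2 (norm_nonneg _) h3

end

open Pool.Agent.H394R2.Ones hiding F in
open Pool.Agent.W288.LM in
/-- the twisted inequality for the digits of a quadratic irrational in `(0, 1)` -/
theorem twisted_of {b : ℕ} {y : ℝ} (hb : 2 ≤ b) (hy0 : 0 < y) (hy1 : y < 1) (hirr : Irrational y)
    {A B C : ℤ} (hA : 0 < A) (hq : (A : ℝ) * y ^ 2 + B * y + C = 0) {a : ℕ → ℝ}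
    (ha : ∀ k, a (k + 1) = x b y (k + 1)) (ha0 : ∀ k, 0 ≤ a k) (hab : ∀ k, |a k| ≤ b) :
    Twisted b (((b : ℝ) - 1) * (((Int.gcd b (2 * A) : ℕ) : ℝ) / A)) a := by
  intro z hz hz1 ε hε
  have hbR : (2 : ℝ) ≤ b := by exact_mod_cast hb
  have hAR : (1 : ℝ) ≤ A := by exact_mod_cast hA
  set s : ℝ := ((b : ℝ) - 1) * (((Int.gcd b (2 * A) : ℕ) : ℝ) / A) with hs
  have hs0 : 0 ≤ s := mul_nonneg (by linarith) (by positivity)
  set κ : ℝ := ((b : ℝ) - 1) / ‖(b : ℂ) * z - 1‖ with hκ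
  have hMlt := kappa_lt hb hz hz1
  have hM0 : 0 < ‖(b : ℂ) * z - 1‖ := by linarith
  have hκ0 : 0 ≤ κ := div_nonneg (by linarith) hM0.le
  have hκ1 : κ < 1 := by rw [hκ, div_lt_one hM0]; exact hMlt
  have hδ0 : 0 < min 1 (ε / (2 * (s + 1))) := by positivity
  obtain ⟨C₀, hC0, hC⟩ := twist hb hy0 hy1 hirr hA hq hz hz1 (min 1 (ε / (2 * (s + 1)))) hδ0
    (min_le_left _ _)
  rw [← hs, ← hκ] at hC
  set δ := min 1 (ε / (2 * (s + 1))) with hδd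
  have hδ : s * δ ≤ ε / 2 := by
    have h1 : δ ≤ ε / (2 * (s + 1)) := min_le_right _ _
    rw [le_div_iff₀ (by positivity)] at h1
    nlinarith
  obtain ⟨σ₀, hσ0, hσ2, H⟩ := absorb hs0 hκ0 hκ1 hε hδ hC0
  filter_upwards [Ioo_mem_nhdsGT hσ0] with σ hσσ
  obtain ⟨hσ, hσ1⟩ := hσσ
  refine H σ (SS a σ) ‖TZ a z σ‖ hσ hσ1 (norm_nonneg _) (TZ_le ha0 hab hz hσ) ?_
  -- the limit
  have hF : Tendsto (fun n => F b y n σ) atTop (𝓝 (SS a σ)) := by
    have h1 := (summ hab hσ).hasSum.tendsto_sum_nat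
    refine h1.congr fun n => ?_
    unfold F
    rw [sum_range_succ' (fun i => (x b y i : ℝ) * Real.exp (-(σ * i))), x_zero hy0 hy1]
    simp only [Nat.cast_zero, zero_mul, add_zero]
    exact sum_congr rfl fun k _ => by rw [ha k]
  have hG : Tendsto (fun n => G b y z n σ) atTop (𝓝 (TZ a z σ)) := by
    have h1 := (summ_z hab hz hσ).hasSum.tendsto_sum_nat
    refine h1.congr fun n => ?_
    unfold G
    rw [sum_range_succ' (fun i => (((x b y i : ℝ) * Real.exp (-(σ * i)) : ℝ) : ℂ) * z ^ i),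
      x_zero hy0 hy1]
    simp only [Nat.cast_zero, zero_mul, Complex.ofReal_zero, add_zero]
    exact sum_congr rfl fun k _ => by rw [ha k]
  have hE : Tendsto (fun n : ℕ => Real.exp (-(σ * n))) atTop (𝓝 0) := by
    apply Real.tendsto_exp_neg_atTop_nhds_zero.comp
    exact tendsto_natCast_atTop_atTop.const_mul_atTop hσ
  have hL : Tendsto (fun n : ℕ => s * (1 - δ) * (1 - Real.exp (-(σ * n))) / σ +
      κ * ‖G b y z n σ‖ ^ 2) atTop (𝓝 (s * (1 - δ) * (1 - 0) / σ + κ * ‖TZ a z σ‖ ^ 2)) :=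
    (((hE.const_sub 1).const_mul _).div_const σ).add (((hG.norm).pow 2).const_mul κ)
  have hR : Tendsto (fun n : ℕ => F b y n σ ^ 2 + C₀ * (1 + F b y n σ)) atTop
      (𝓝 (SS a σ ^ 2 + C₀ * (1 + SS a σ))) :=
    (hF.pow 2).add ((hF.const_add 1).const_mul C₀)
  have h := le_of_tendsto_of_tendsto' hL hR fun n => hC n σ hσ (by linarith)
  rwa [sub_zero, mul_one] at h

end Run7.h53.TW
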