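import Pool.Agent.Run7.h53.TW.Core

/-!
# Twisted inequalities for the digits of quadratic irrationals
-/

set_option autoImplicit false
set_option linter.unusedSectionVars false

open Finset

namespace Run7.h53.TW

open Pool.Agent.H394R2.Ones hiding F
open Pool.Agent.H820R3.DG Pool.Agent.W288.LM

lemma exists_u (g : ℂ) : ∃ u : ℂ, ‖u‖ = 1 ∧ (u * g ^ 2).re = -‖g‖ ^ 2 := by
  by_cases hg : g = 0
  · exact ⟨1, by simp, by simp [hg]⟩
  · have hg2 : g ^ 2 ≠ 0 := pow_ne_zero 2 hg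
    have hn : (‖g ^ 2‖ : ℂ) ≠ 0 := by
      rw [Ne, Complex.ofReal_eq_zero]; exact norm_ne_zero_iff.mpr hg2
    refine ⟨-(starRingEnd ℂ (g ^ 2)) / ‖g ^ 2‖, ?_, ?_⟩
    · rw [norm_div, norm_neg, RCLike.norm_conj, Complex.norm_real, norm_norm,
        div_self (norm_ne_zero_iff.mpr hg2)]
    · have h1 : -(starRingEnd ℂ (g ^ 2)) / ‖g ^ 2‖ * g ^ 2 = ((-‖g‖ ^ 2 : ℝ) : ℂ) := by
        have h2 : starRingEnd ℂ (g ^ 2) * g ^ 2 = ((‖g ^ 2‖ ^ 2 : ℝ) : ℂ) := by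
          rw [Complex.conj_mul']
          push_cast
          rfl
        have h3 : -(starRingEnd ℂ (g ^ 2)) / ‖g ^ 2‖ * g ^ 2 =
            -(starRingEnd ℂ (g ^ 2) * g ^ 2) / ‖g ^ 2‖ := by ring
        rw [h3, h2]
        push_cast
        rw [neg_div, sq (‖g ^ 2‖ : ℂ), mul_div_assoc, div_self hn, mul_one, norm_pow]
        push_cast
        ring
      rw [h1, Complex.ofReal_re]

lemma norm_sub_mono {z : ℂ} (hz : ‖z‖ = 1) {t b : ℝ} (ht : 1 ≤ t) (htb : t ≤ b) :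
    ‖(t : ℂ) * z - 1‖ ≤ ‖(b : ℂ) * z - 1‖ := by
  have hc : z.re ≤ 1 := (Complex.re_le_norm z).trans hz.le
  have key : ∀ s : ℝ, ‖(s : ℂ) * z - 1‖ ^ 2 = s ^ 2 - 2 * s * z.re + 1 := by
    intro s
    have h1 : z.re ^ 2 + z.im ^ 2 = 1 := by
      have h2 := Complex.sq_norm z
      rw [hz, Complex.normSq_apply] at h2
      linarith [h2]
    rw [Complex.sq_norm, Complex.normSq_apply]
    simp only [Complex.sub_re, Complex.mul_re, Complex.ofReal_re, Complex.ofReal_im, zero_mul,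
      sub_zero, Complex.one_re, Complex.sub_im, Complex.mul_im, add_zero, Complex.one_im]
    linear_combination s ^ 2 * h1
  have h := key t
  have h' := key b
  have h2 : ‖(t : ℂ) * z - 1‖ ^ 2 ≤ ‖(b : ℂ) * z - 1‖ ^ 2 := by
    rw [h, h']
    nlinarith [mul_nonneg (sub_nonneg.mpr htb) (by linarith : (0 : ℝ) ≤ b + t - 2 * z.re)]
  exact le_of_sq_le_sq h2 (norm_nonneg _)

lemma norm_sub_ge {z : ℂ} (hz : ‖z‖ = 1) {q : ℝ} (hq : 1 / 2 ≤ q) :
    ‖1 - z‖ / 2 ≤ ‖1 - (q : ℂ) * z‖ := by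
  have hc : z.re ≤ 1 := (Complex.re_le_norm z).trans hz.le
  have h1 : z.re ^ 2 + z.im ^ 2 = 1 := by
    have h2 := Complex.sq_norm z
    rw [hz, Complex.normSq_apply] at h2
    linarith [h2]
  have key : ∀ s : ℝ, ‖1 - (s : ℂ) * z‖ ^ 2 = s ^ 2 - 2 * s * z.re + 1 := by
    intro s
    rw [Complex.sq_norm, Complex.normSq_apply]
    simp only [Complex.sub_re, Complex.mul_re, Complex.ofReal_re, Complex.ofReal_im, zero_mul,
      sub_zero, Complex.one_re, Complex.sub_im, Complex.mul_im, add_zero, Complex.one_im]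
    linear_combination s ^ 2 * h1
  have h2 := key q
  have h3 := key 1
  simp only [Complex.ofReal_one, one_mul] at h3
  have h4 : (‖1 - z‖ / 2) ^ 2 ≤ ‖1 - (q : ℂ) * z‖ ^ 2 := by
    rw [h2, div_pow, h3]
    nlinarith [sq_nonneg (1 - q), mul_nonneg (sub_nonneg.mpr hc) (by linarith : (0 : ℝ) ≤ q - 1 / 4)]
  exact le_of_sq_le_sq h4 (norm_nonneg _)

section
variable {b : ℕ} {y : ℝ}

/-- the twisted digit sum -/
noncomputable def G (b : ℕ) (y : ℝ) (z : ℂ) (n : ℕ) (σ : ℝ) : ℂ :=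
  ∑ i ∈ range (n + 1), (((x b y i : ℝ) * Real.exp (-(σ * i)) : ℝ) : ℂ) * z ^ i

lemma G_norm_le {z : ℂ} (hz : ‖z‖ = 1) (n : ℕ) (σ : ℝ) : ‖G b y z n σ‖ ≤ F b y n σ := by
  unfold G F
  refine (norm_sum_le _ _).trans (sum_le_sum fun i _ => ?_)
  rw [norm_mul, norm_pow, hz, one_pow, mul_one, Complex.norm_real, Real.norm_eq_abs,
    abs_of_nonneg (mul_nonneg (Nat.cast_nonneg _) (Real.exp_pos _).le)]

/-- the weights -/
noncomputable def vv (σ κ : ℝ) (u z : ℂ) (m : ℕ) : ℝ :=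
  Real.exp (-(σ * m)) * (1 + κ * (u * z ^ m).re)

lemma abs_re_le {u z : ℂ} (hu : ‖u‖ = 1) (hz : ‖z‖ = 1) (m : ℕ) : |(u * z ^ m).re| ≤ 1 := by
  refine (Complex.abs_re_le_norm _).trans ?_
  rw [norm_mul, norm_pow, hu, hz, one_pow, mul_one]

lemma r_sum_tw (n : ℕ) (σ κ : ℝ) (u z : ℂ) (hv : ∀ m, 0 ≤ vv σ κ u z m) :
    ∑ m ∈ range (n + 1), (r b y m : ℝ) * vv σ κ u z m ≤
      F b y n σ ^ 2 + κ * (u * G b y z n σ ^ 2).re := by
  have h1 := pair_sum n (fun i j : ℕ => ((x b y i : ℝ) * x b y j) * vv σ κ u z (i + j))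
  have h2 : ∑ p ∈ range (n + 1) ×ˢ range (n + 1),
      ((x b y p.1 : ℝ) * x b y p.2) * vv σ κ u z (p.1 + p.2) =
      F b y n σ ^ 2 + κ * (u * G b y z n σ ^ 2).re := by
    have e1 : F b y n σ ^ 2 = ∑ p ∈ range (n + 1) ×ˢ range (n + 1),
        ((x b y p.1 : ℝ) * x b y p.2) * Real.exp (-(σ * ((p.1 + p.2 : ℕ) : ℝ))) := by
      unfold F
      rw [sq, sum_mul_sum, ← sum_product']
      refine sum_congr rfl fun p _ => ?_
      rw [show -(σ * ((p.1 + p.2 : ℕ) : ℝ)) = -(σ * p.1) + -(σ * p.2) by push_cast; ring,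
        Real.exp_add]
      ring
    have e2 : (u * G b y z n σ ^ 2).re = ∑ p ∈ range (n + 1) ×ˢ range (n + 1),
        ((x b y p.1 : ℝ) * x b y p.2) * Real.exp (-(σ * ((p.1 + p.2 : ℕ) : ℝ))) *
          (u * z ^ (p.1 + p.2)).re := by
      unfold G
      rw [sq, sum_mul_sum, ← sum_product', mul_sum, Complex.re_sum]
      refine sum_congr rfl fun p _ => ?_
      have e3 : u * ((((x b y p.1 : ℝ) * Real.exp (-(σ * p.1)) : ℝ) : ℂ) * z ^ p.1 *
          ((((x b y p.2 : ℝ) * Real.exp (-(σ * p.2)) : ℝ) : ℂ) * z ^ p.2)) =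
          (((((x b y p.1 : ℝ) * x b y p.2) * Real.exp (-(σ * ((p.1 + p.2 : ℕ) : ℝ)))) : ℝ) : ℂ) *
            (u * z ^ (p.1 + p.2)) := by
        rw [show -(σ * ((p.1 + p.2 : ℕ) : ℝ)) = -(σ * p.1) + -(σ * p.2) by push_cast; ring,
          Real.exp_add]
        push_cast
        ring
      rw [e3, Complex.re_ofReal_mul]
    rw [e1, e2, mul_sum, ← sum_add_distrib]
    refine sum_congr rfl fun p _ => ?_
    unfold vv
    ring
  have h3 : ∑ m ∈ range (n + 1), ∑ p ∈ antidiagonal m,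
      ((x b y p.1 : ℝ) * x b y p.2) * vv σ κ u z (p.1 + p.2) =
      ∑ m ∈ range (n + 1), (r b y m : ℝ) * vv σ κ u z m := by
    refine sum_congr rfl fun m _ => ?_
    unfold r
    push_cast
    rw [sum_mul]
    refine sum_congr rfl fun p hp => ?_
    have : p.1 + p.2 = m := mem_antidiagonal.mp hp
    rw [← this]
  rw [← h2, h1, h3]
  refine le_add_of_nonneg_right (sum_nonneg fun p _ => ?_)
  exact mul_nonneg (mul_nonneg (Nat.cast_nonneg _) (Nat.cast_nonneg _)) (hv _)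

lemma geom_tw {z : ℂ} (hz : ‖z‖ = 1) (hz1 : z ≠ 1) {σ : ℝ} (hσ : 0 < σ) (hσ1 : σ ≤ 1 / 2) (n : ℕ) :
    ‖∑ m ∈ range n, (Real.exp (-(σ * m)) : ℂ) * z ^ m‖ ≤ 4 / ‖1 - z‖ := by
  set q := Real.exp (-σ) with hq
  have hq1 : 1 / 2 ≤ q := by
    have := Real.add_one_le_exp (-σ)
    linarith
  have hq2 : q ≤ 1 := by
    rw [hq]; exact Real.exp_le_one_iff.mpr (by linarith)
  have h1 : ∑ m ∈ range n, (Real.exp (-(σ * m)) : ℂ) * z ^ m = ∑ m ∈ range n, ((q : ℂ) * z) ^ m := by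
    refine sum_congr rfl fun m _ => ?_
    rw [mul_pow, hq, ← Complex.ofReal_pow, ← Real.exp_nat_mul]
    congr 3
    ring
  have hne : 0 < ‖1 - z‖ := norm_pos_iff.mpr (sub_ne_zero.mpr hz1.symm)
  have h2 := norm_sub_ge hz hq1
  have h3 : (1 - (q : ℂ) * z) * ∑ m ∈ range n, ((q : ℂ) * z) ^ m = 1 - ((q : ℂ) * z) ^ n := by
    rw [mul_neg_geom_sum]
  have h4 : ‖1 - ((q : ℂ) * z) ^ n‖ ≤ 2 := by
    refine (norm_sub_le _ _).trans ?_
    rw [norm_one, norm_pow, norm_mul, hz, mul_one, Complex.norm_real, Real.norm_eq_abs,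
      abs_of_nonneg (by linarith)]
    have : q ^ n ≤ 1 := pow_le_one₀ (by linarith) hq2
    linarith
  rw [h1, le_div_iff₀ hne]
  rw [← h3, norm_mul] at h4
  have h5 := norm_nonneg (∑ m ∈ range n, ((q : ℂ) * z) ^ m)
  nlinarith

/-- the sum of the deficiencies with exponential weights -/
lemma dd_w (hb : 2 ≤ b) (hy0 : 0 < y) (hy1 : y < 1) (hirr : Irrational y)
    (halg : IsAlgebraic ℚ y) (τ B δ : ℝ) (hτ : 0 ≤ τ) (hB : 0 ≤ B) (hδ : 0 < δ) (hδ1 : δ ≤ 1 / 4) :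
    ∃ C2 : ℝ, 0 ≤ C2 ∧ ∀ n : ℕ, ∀ σ : ℝ, 0 < σ → σ ≤ 1 / 2 →
      ∑ m ∈ range n, dd b y τ B m * Real.exp (-(σ * m)) ≤
        C2 + 2 * C2 * F b y n σ + τ * δ * ∑ m ∈ range n, Real.exp (-(σ * m)) := by
  obtain ⟨C2, hC20, hC2⟩ := dd_sum hb hy0 hy1 hirr halg τ B δ hτ hB hδ hδ1
  refine ⟨C2, hC20, fun n σ hσ hσ1 => ?_⟩
  set f := F b y n σ with hf
  have hf0 : 0 ≤ f := F_nonneg n σ
  set W := ∑ m ∈ range n, Real.exp (-(σ * m)) with hW
  have h2 := abel_ge (fun m => C2 * x b y (m + 1) + τ * δ - dd b y τ B m)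
    (fun m => Real.exp (-(σ * m))) C2 (by
      intro i j hij
      apply Real.exp_le_exp.mpr
      have : (i : ℝ) ≤ j := by exact_mod_cast hij
      nlinarith) n (by
      intro k
      have h3 := hC2 k
      have h4 : (K b y k : ℝ) = ∑ m ∈ range k, (x b y (m + 1) : ℝ) := by
        unfold K
        rw [sum_range_succ', x_zero hy0 hy1]
        push_cast
        ring
      rw [sum_sub_distrib, sum_add_distrib, ← mul_sum, ← h4]
      simp only [sum_const, card_range, nsmul_eq_mul]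
      linarith) (Real.exp_pos _).le
  simp only [Nat.cast_zero, mul_zero, neg_zero, Real.exp_zero, mul_one] at h2
  have h3 : ∑ m ∈ range n, (C2 * x b y (m + 1) + τ * δ - dd b y τ B m) *
      Real.exp (-(σ * m)) = C2 * ∑ m ∈ range n, (x b y (m + 1) : ℝ) * Real.exp (-(σ * m)) +
      τ * δ * W - ∑ m ∈ range n, dd b y τ B m * Real.exp (-(σ * m)) := by
    rw [hW, mul_sum, mul_sum, ← sum_add_distrib, ← sum_sub_distrib]
    refine sum_congr rfl fun m _ => ?_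
    ring
  rw [h3] at h2
  have h4 : ∑ m ∈ range n, (x b y (m + 1) : ℝ) * Real.exp (-(σ * m)) ≤ 2 * f := by
    have h5 : Real.exp σ ≤ 2 := by
      have h6 : Real.exp σ ≤ Real.exp (1 / 2) := Real.exp_le_exp.mpr hσ1
      have h7 : Real.exp (1 / 2) ^ 2 = Real.exp 1 := by
        rw [← Real.exp_nat_mul]; norm_num
      have h8 := Real.exp_one_lt_d9
      have h9 := Real.exp_pos (1 / 2)
      nlinarith
    have h6 : ∑ m ∈ range n, (x b y (m + 1) : ℝ) * Real.exp (-(σ * m)) =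
        Real.exp σ * ∑ m ∈ range n, (x b y (m + 1) : ℝ) *
          Real.exp (-(σ * ((m + 1 : ℕ) : ℝ))) := by
      rw [mul_sum]
      refine sum_congr rfl fun m _ => ?_
      have : Real.exp (-(σ * m)) = Real.exp σ * Real.exp (-(σ * ((m + 1 : ℕ) : ℝ))) := by
        rw [← Real.exp_add]; congr 1; push_cast; ring
      rw [this]; ring
    have h7 : ∑ m ∈ range n, (x b y (m + 1) : ℝ) *
          Real.exp (-(σ * ((m + 1 : ℕ) : ℝ))) ≤ f := by
      rw [hf]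
      unfold F
      rw [sum_range_succ' (fun m => (x b y m : ℝ) * Real.exp (-(σ * (m : ℝ))))]
      refine le_add_of_nonneg_right ?_
      positivity
    rw [h6]
    have h8 := Real.exp_pos σ
    nlinarith
  have h5 := mul_le_mul_of_nonneg_left h4 hC20
  linarith

lemma x_le (hb : 2 ≤ b) (i : ℕ) : (x b y i : ℝ) ≤ b - 1 := by
  have h : x b y i < b := Nat.mod_lt _ (by omega)
  have : (x b y i : ℝ) + 1 ≤ b := by exact_mod_cast h
  linarith

lemma F_le (hb : 2 ≤ b) (hy0 : 0 < y) (hy1 : y < 1) (n : ℕ) {σ : ℝ} (hσ : 0 < σ)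
    (hσ1 : σ ≤ 1 / 2) : σ * F b y n σ ≤ 2 * (b - 1) := by
  have hbR : (2 : ℝ) ≤ b := by exact_mod_cast hb
  set q := Real.exp (-σ) with hq
  have h1 : F b y n σ ≤ (b - 1) * ∑ m ∈ range (n + 1), Real.exp (-(σ * m)) := by
    unfold F
    rw [mul_sum]
    exact sum_le_sum fun i _ => mul_le_mul_of_nonneg_right (x_le hb i) (Real.exp_pos _).le
  have h2 := geom_w (n + 1) σ
  set W := ∑ m ∈ range (n + 1), Real.exp (-(σ * m)) with hW
  have hW0 : 0 ≤ W := sum_nonneg fun _ _ => (Real.exp_pos _).le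
  have h3 : 1 - Real.exp (-(σ * ((n + 1 : ℕ) : ℝ))) ≤ 1 := by
    have := Real.exp_pos (-(σ * ((n + 1 : ℕ) : ℝ))); linarith
  have h4 : σ / 2 ≤ 1 - Real.exp (-σ) := by
    have h5 : Real.exp (-σ) ≤ 1 / (1 + σ) := by
      rw [Real.exp_neg, ← one_div]
      apply one_div_le_one_div_of_le (by linarith)
      have := Real.add_one_le_exp σ
      linarith
    have h6 : 1 / (1 + σ) ≤ 1 - σ / 2 := by
      rw [div_le_iff₀ (by linarith)]
      nlinarith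
    linarith
  have h5 : σ * W ≤ 2 := by nlinarith
  have h6 : (b - 1) * (σ * W) ≤ (b - 1) * 2 := mul_le_mul_of_nonneg_left h5 (by linarith)
  nlinarith [mul_le_mul_of_nonneg_left h1 hσ.le]

lemma q_bounds {σ : ℝ} (hσ : 0 < σ) (hσ1 : σ ≤ 1 / 2) :
    1 - σ ≤ Real.exp (-σ) ∧ Real.exp (-σ) < 1 ∧ σ / 2 ≤ 1 - Real.exp (-σ) := by
  refine ⟨?_, ?_, ?_⟩
  · have := Real.add_one_le_exp (-σ)
    linarith
  · rw [← Real.exp_zero]; exact Real.exp_lt_exp.mpr (by linarith)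
  · have h5 : Real.exp (-σ) ≤ 1 / (1 + σ) := by
      rw [Real.exp_neg, ← one_div]
      apply one_div_le_one_div_of_le (by linarith)
      have := Real.add_one_le_exp σ
      linarith
    have h6 : 1 / (1 + σ) ≤ 1 - σ / 2 := by
      rw [div_le_iff₀ (by linarith)]
      nlinarith
    linarith

lemma vv_nonneg {σ κ : ℝ} {u z : ℂ} (hu : ‖u‖ = 1) (hz : ‖z‖ = 1) (hκ0 : 0 ≤ κ) (hκ1 : κ ≤ 1)
    (m : ℕ) : 0 ≤ vv σ κ u z m := by
  unfold vv
  apply mul_nonneg (Real.exp_pos _).le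
  have h1 := (abs_le.mp (abs_re_le hu hz m)).1
  have h2 := mul_le_mul_of_nonneg_left h1 hκ0
  linarith

lemma vv_le {σ κ : ℝ} {u z : ℂ} (hu : ‖u‖ = 1) (hz : ‖z‖ = 1) (hκ0 : 0 ≤ κ) (hκ1 : κ ≤ 1)
    (m : ℕ) : vv σ κ u z m ≤ 2 * Real.exp (-(σ * m)) := by
  unfold vv
  have h1 := (abs_le.mp (abs_re_le hu hz m)).2
  have h2 := Real.exp_pos (-(σ * m))
  have h3 : κ * (u * z ^ m).re ≤ 1 := by
    have := mul_le_mul_of_nonneg_left h1 hκ0
    linarith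
  have h4 : 1 + κ * (u * z ^ m).re ≤ 2 := by linarith
  have h5 := mul_le_mul_of_nonneg_left h4 h2.le
  linarith

lemma vv_step {b : ℕ} (hb : 2 ≤ b) {σ M : ℝ} {u z : ℂ} (hu : ‖u‖ = 1) (hz : ‖z‖ = 1)
    (hσ : 0 < σ) (hσ1 : σ ≤ 1 / 2) (hM : M = ‖(b : ℂ) * z - 1‖) (hM0 : 0 < M) (m : ℕ) :
    vv σ ((b * Real.exp (-σ) - 1) / M) u z m ≤
      b * vv σ ((b * Real.exp (-σ) - 1) / M) u z (m + 1) := by
  have hbR : (2 : ℝ) ≤ b := by exact_mod_cast hb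
  obtain ⟨hq1, hq2, -⟩ := q_bounds hσ hσ1
  unfold vv
  have e1 : Real.exp (-(σ * ((m + 1 : ℕ) : ℝ))) = Real.exp (-σ) * Real.exp (-(σ * m)) := by
    rw [← Real.exp_add]; congr 1; push_cast; ring
  rw [e1]
  set q := Real.exp (-σ) with hq
  have ht1 : 1 ≤ b * q := by
    have : 1 / 2 ≤ q := by linarith
    nlinarith
  have htb : b * q ≤ b := by nlinarith
  set t := b * q with ht
  set κ := (t - 1) / M with hκ
  have hκ0 : 0 ≤ κ := div_nonneg (by linarith) hM0.le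
  have e2 : ‖(t : ℂ) * z - 1‖ ≤ M := by
    rw [hM]
    have := norm_sub_mono hz ht1 htb
    simpa using this
  have e3 : κ * (u * z ^ m).re - κ * (t * (u * z ^ (m + 1)).re) ≤ t - 1 := by
    have e4 : (u * z ^ m).re - t * (u * z ^ (m + 1)).re = -(u * z ^ m * ((t : ℂ) * z - 1)).re := by
      have : u * z ^ m * ((t : ℂ) * z - 1) = (t : ℂ) * (u * z ^ (m + 1)) - u * z ^ m := by
        rw [pow_succ]; ring
      rw [this, Complex.sub_re, Complex.re_ofReal_mul]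
      ring
    have e5 : |(u * z ^ m * ((t : ℂ) * z - 1)).re| ≤ M := by
      refine (Complex.abs_re_le_norm _).trans ?_
      rw [norm_mul, norm_mul, norm_pow, hu, hz, one_pow, one_mul, one_mul]
      exact e2
    have e6 : κ * M = t - 1 := by rw [hκ]; field_simp
    have e7 := (abs_le.mp e5).1
    calc κ * (u * z ^ m).re - κ * (t * (u * z ^ (m + 1)).re)
        = κ * ((u * z ^ m).re - t * (u * z ^ (m + 1)).re) := by ring
      _ ≤ κ * M := mul_le_mul_of_nonneg_left (by rw [e4]; linarith) hκ0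
      _ = t - 1 := e6
  have e8 := Real.exp_pos (-(σ * m))
  have e9 : b * (q * Real.exp (-(σ * m)) * (1 + κ * (u * z ^ (m + 1)).re)) =
      Real.exp (-(σ * m)) * (t + κ * (t * (u * z ^ (m + 1)).re)) := by rw [ht]; ring
  rw [e9]
  exact mul_le_mul_of_nonneg_left (by linarith) e8.le

lemma vv_sum {σ κ D : ℝ} {u z : ℂ} (hu : ‖u‖ = 1) (hκ0 : 0 ≤ κ) (hκ1 : κ ≤ 1) (hD0 : 0 ≤ D)
    (n : ℕ) (hgeo : ‖∑ m ∈ range n, (Real.exp (-(σ * m)) : ℂ) * z ^ m‖ ≤ D) :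
    ∑ m ∈ range n, Real.exp (-(σ * m)) - D ≤ ∑ m ∈ range n, vv σ κ u z m := by
  have e1 : ∑ m ∈ range n, vv σ κ u z m = ∑ m ∈ range n, Real.exp (-(σ * m)) +
      κ * (u * ∑ m ∈ range n, (Real.exp (-(σ * m)) : ℂ) * z ^ m).re := by
    rw [mul_sum, Complex.re_sum, mul_sum, ← sum_add_distrib]
    refine sum_congr rfl fun m _ => ?_
    unfold vv
    have : u * ((Real.exp (-(σ * m)) : ℂ) * z ^ m) = (Real.exp (-(σ * m)) : ℂ) * (u * z ^ m) := by
      ring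
    rw [this, Complex.re_ofReal_mul]
    ring
  have e2 : |(u * ∑ m ∈ range n, (Real.exp (-(σ * m)) : ℂ) * z ^ m).re| ≤ D := by
    refine (Complex.abs_re_le_norm _).trans ?_
    rw [norm_mul, hu, one_mul]
    exact hgeo
  have e3 := (abs_le.mp e2).1
  rw [e1]
  have e4 := mul_le_mul_of_nonneg_left e3 hκ0
  have e5 := mul_le_mul_of_nonneg_right hκ1 hD0
  linarith

lemma kappa_diff {b : ℕ} (hb : 2 ≤ b) {σ M f G : ℝ} (hσ : 0 < σ) (hσ1 : σ ≤ 1 / 2)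
    (hMb : (b : ℝ) - 1 ≤ M) (hG0 : 0 ≤ G) (hGf : G ≤ f) (hf : σ * f ≤ 2 * (b - 1)) :
    ((b : ℝ) - 1) / M * G ^ 2 ≤ (b * Real.exp (-σ) - 1) / M * G ^ 2 + 4 * (b - 1) * f := by
  have hbR : (2 : ℝ) ≤ b := by exact_mod_cast hb
  have hM0 : 0 < M := by linarith
  obtain ⟨hq1, hq2, -⟩ := q_bounds hσ hσ1
  have hf0 : 0 ≤ f := hG0.trans hGf
  have e1 : ((b : ℝ) - 1) / M ≤ (b * Real.exp (-σ) - 1) / M + 2 * σ := by
    rw [div_le_iff₀ hM0, add_mul, div_mul_cancel₀ _ hM0.ne']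
    have e2 : (b : ℝ) * (1 - σ) ≤ b * Real.exp (-σ) := mul_le_mul_of_nonneg_left hq1 (by linarith)
    have e3 : 2 * σ * ((b : ℝ) - 1) ≤ 2 * σ * M := mul_le_mul_of_nonneg_left hMb (by linarith)
    nlinarith
  have e6 : G ^ 2 ≤ f ^ 2 := pow_le_pow_left₀ hG0 hGf 2
  have e7 := mul_le_mul_of_nonneg_right e1 (sq_nonneg G)
  have e8 : 2 * σ * G ^ 2 ≤ 2 * σ * f ^ 2 := mul_le_mul_of_nonneg_left e6 (by linarith)
  have e9 : σ * f * f ≤ 2 * (b - 1) * f := mul_le_mul_of_nonneg_right hf hf0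
  have e10 : 2 * σ * f ^ 2 = 2 * (σ * f * f) := by ring
  have e11 : ((b * Real.exp (-σ) - 1) / M + 2 * σ) * G ^ 2 =
    (b * Real.exp (-σ) - 1) / M * G ^ 2 + 2 * σ * G ^ 2 := by ring
  linarith

/-- the final computation -/
lemma final_arith {b τ E σ D δ M f C2 W V vn v0 R S Kv G κ : ℝ} (hb : 2 ≤ b) (hτ : 0 ≤ τ)
    (hE : 0 ≤ E / σ) (hD : 0 ≤ D) (hδ : 0 ≤ δ) (hf : 0 ≤ f) (hC2 : 0 ≤ C2)
    (h1 : τ * ((b - 1) * V + b * (vn - v0)) - S ≤ R + Kv)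
    (h2 : R ≤ f ^ 2 + κ * -G ^ 2) (h3 : Kv ≤ 2 * (f + 1))
    (h4 : S ≤ 2 * b * (C2 + 2 * C2 * f + τ * (δ / 8) * W))
    (h5 : W - D ≤ V) (h6 : -2 ≤ vn - v0) (h7 : E / σ ≤ W) (h8 : W ≤ 2 * (E / σ))
    (h9 : (b - 1) / M * G ^ 2 ≤ κ * G ^ 2 + 4 * (b - 1) * f) :
    (b - 1) * τ * (1 - δ) * E / σ + (b - 1) / M * G ^ 2 ≤
      f ^ 2 + (2 + τ * ((b - 1) * D + 2 * b + b) + 2 * b * (C2 + 2 * C2) + 4 * (b - 1)) *
        (1 + f) := by
  have hb1 : 0 ≤ b - 1 := by linarith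
  have h10 : τ * ((b - 1) * (W - D) + b * (-2)) ≤ τ * ((b - 1) * V + b * (vn - v0)) := by
    apply mul_le_mul_of_nonneg_left _ hτ
    have e1 : (b - 1) * (W - D) ≤ (b - 1) * V := mul_le_mul_of_nonneg_left h5 hb1
    have e2 : b * (-2) ≤ b * (vn - v0) := mul_le_mul_of_nonneg_left h6 (by linarith)
    linarith
  have h11 : 2 * b * (τ * (δ / 8) * W) ≤ (b - 1) * τ * δ * (E / σ) := by
    have e1 : 0 ≤ τ * δ := by positivity
    have e2 : τ * δ * W ≤ τ * δ * (2 * (E / σ)) := mul_le_mul_of_nonneg_left h8 e1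
    have e4 : 0 ≤ τ * δ * (E / σ) := mul_nonneg e1 hE
    have e5 : b / 4 * (τ * δ * W) ≤ b / 4 * (τ * δ * (2 * (E / σ))) :=
      mul_le_mul_of_nonneg_left e2 (by linarith)
    have e6 : b / 2 * (τ * δ * (E / σ)) ≤ (b - 1) * (τ * δ * (E / σ)) :=
      mul_le_mul_of_nonneg_right (by linarith) e4
    calc 2 * b * (τ * (δ / 8) * W) = b / 4 * (τ * δ * W) := by ring
      _ ≤ b / 4 * (τ * δ * (2 * (E / σ))) := e5
      _ = b / 2 * (τ * δ * (E / σ)) := by ring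
      _ ≤ (b - 1) * (τ * δ * (E / σ)) := e6
      _ = (b - 1) * τ * δ * (E / σ) := by ring
  have h12 : τ * ((b - 1) * (E / σ)) ≤ τ * ((b - 1) * W) :=
    mul_le_mul_of_nonneg_left (mul_le_mul_of_nonneg_left h7 hb1) hτ
  have h13 : (b - 1) * τ * (1 - δ) * E / σ = τ * ((b - 1) * (E / σ)) -
      (b - 1) * τ * δ * (E / σ) := by ring
  rw [h13]
  have h14 : 0 ≤ τ * ((b - 1) * D + 2 * b + b) := by positivity
  have h17 : 0 ≤ τ * b := by positivity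
  have h18 := mul_nonneg h14 hf
  have h19 : 0 ≤ b * C2 * f := by positivity
  have h20 : 0 ≤ b * C2 := by positivity
  have e1 : τ * ((b - 1) * (W - D) + b * (-2)) = τ * ((b - 1) * W) -
      τ * ((b - 1) * D + 2 * b + b) + τ * b := by ring
  have e2 : 2 * b * (C2 + 2 * C2 * f + τ * (δ / 8) * W) =
      2 * (b * C2) + 4 * (b * C2 * f) + 2 * b * (τ * (δ / 8) * W) := by ring
  have e3 : (2 + τ * ((b - 1) * D + 2 * b + b) + 2 * b * (C2 + 2 * C2) + 4 * (b - 1)) * (1 + f) =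
      2 + 2 * f + τ * ((b - 1) * D + 2 * b + b) + τ * ((b - 1) * D + 2 * b + b) * f +
      6 * (b * C2) + 6 * (b * C2 * f) + 4 * (b - 1) + 4 * (b - 1) * f := by ring
  have e4 : κ * -G ^ 2 = -(κ * G ^ 2) := by ring
  rw [e1] at h10
  rw [e2] at h4
  rw [e4] at h2
  rw [e3]
  linarith

/-- **The twisted inequality.** -/
theorem twist (hb : 2 ≤ b) (hy0 : 0 < y) (hy1 : y < 1) (hirr : Irrational y) {A B C : ℤ}
    (hA : 0 < A) (hq : (A : ℝ) * y ^ 2 + B * y + C = 0) {z : ℂ} (hz : ‖z‖ = 1) (hz1 : z ≠ 1)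
    (δ : ℝ) (hδ : 0 < δ) (hδ1 : δ ≤ 1) :
    ∃ C₀ : ℝ, 0 ≤ C₀ ∧ ∀ n : ℕ, ∀ σ : ℝ, 0 < σ → σ ≤ 1 / 2 →
      (((b : ℝ) - 1) * (((Int.gcd b (2 * A) : ℕ) : ℝ) / A)) * (1 - δ) *
        (1 - Real.exp (-(σ * n))) / σ + ((b : ℝ) - 1) / ‖(b : ℂ) * z - 1‖ * ‖G b y z n σ‖ ^ 2 ≤
        F b y n σ ^ 2 + C₀ * (1 + F b y n σ) := by
  have hbR : (2 : ℝ) ≤ b := by exact_mod_cast hb
  have hAR : (1 : ℝ) ≤ A := by exact_mod_cast hA
  have halg := isAlg hA hq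
  set τ : ℝ := ((Int.gcd b (2 * A) : ℕ) : ℝ) / A with hτ
  have hτ0 : 0 ≤ τ := by positivity
  have hB0 : 0 ≤ |(B : ℝ)| := abs_nonneg _
  obtain ⟨C2, hC20, hC2⟩ := dd_w hb hy0 hy1 hirr halg τ |(B : ℝ)| (δ / 8) hτ0 hB0 (by positivity)
    (by linarith)
  have hne : 0 < ‖1 - z‖ := norm_pos_iff.mpr (sub_ne_zero.mpr hz1.symm)
  set D : ℝ := 4 / ‖1 - z‖ with hD
  have hD0 : 0 ≤ D := by positivity
  -- the norm of `b z - 1`
  set M : ℝ := ‖(b : ℂ) * z - 1‖ with hM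
  have hMb : (b : ℝ) - 1 ≤ M := by
    have h1 : ‖(b : ℂ) * z‖ = b := by rw [norm_mul, hz, mul_one]; simp
    have h2 := norm_sub_norm_le ((b : ℂ) * z) 1
    rw [h1, norm_one] at h2
    exact h2
  have hM0 : 0 < M := by linarith
  refine ⟨2 + τ * ((b - 1) * D + 2 * b + b) + 2 * b * (C2 + 2 * C2) + 4 * (b - 1) , by
    have : 0 ≤ (b : ℝ) - 1 := by linarith
    positivity, fun n σ hσ hσ1 => ?_⟩
  have hf0 : 0 ≤ F b y n σ := F_nonneg n σ
  obtain ⟨hq1, hq2, hq4⟩ := q_bounds hσ hσ1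
  have ht1 : 1 ≤ b * Real.exp (-σ) := by
    have : 1 / 2 ≤ Real.exp (-σ) := by linarith
    nlinarith
  have htb : b * Real.exp (-σ) ≤ b := by nlinarith
  have hκ0 : 0 ≤ (b * Real.exp (-σ) - 1) / M := div_nonneg (by linarith) hM0.le
  have hκ1 : (b * Real.exp (-σ) - 1) / M ≤ 1 := by rw [div_le_one hM0]; linarith
  obtain ⟨u, hu, hug⟩ := exists_u (G b y z n σ)
  have hv : ∀ m, 0 ≤ vv σ ((b * Real.exp (-σ) - 1) / M) u z m := fun m =>
    vv_nonneg hu hz hκ0 hκ1 m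
  have hvle : ∀ m, vv σ ((b * Real.exp (-σ) - 1) / M) u z m ≤ 2 * Real.exp (-(σ * m)) :=
    fun m => vv_le hu hz hκ0 hκ1 m
  have hv2 : ∀ m, vv σ ((b * Real.exp (-σ) - 1) / M) u z m ≤
      b * vv σ ((b * Real.exp (-σ) - 1) / M) u z (m + 1) := fun m =>
    vv_step hb hu hz hσ hσ1 hM hM0 m
  have h1 := r_lower hb hy0 hy1 hirr hA hq n (vv σ ((b * Real.exp (-σ) - 1) / M) u z) hv hv2
  have h2 := r_sum_tw (b := b) (y := y) n σ ((b * Real.exp (-σ) - 1) / M) u z hv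
  rw [hug] at h2
  have h6 : Real.exp (-(σ * n)) ≤ 1 := by
    apply Real.exp_le_one_iff.mpr
    have : (0 : ℝ) ≤ n := Nat.cast_nonneg _
    nlinarith
  have hE0 : 0 ≤ 1 - Real.exp (-(σ * n)) := by linarith
  have hgeo := geom_w n σ
  have hW0 : 0 ≤ ∑ m ∈ range n, Real.exp (-(σ * m)) := sum_nonneg fun _ _ => (Real.exp_pos _).le
  refine final_arith (b := b) (τ := τ) (W := ∑ m ∈ range n, Real.exp (-(σ * m)))
    (D := D) (C2 := C2) hbR hτ0 (div_nonneg hE0 hσ.le) hD0 hδ.le hf0 hC20 h1 h2 ?_ ?_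
    (vv_sum hu hκ0 hκ1 hD0 n (geom_tw hz hz1 hσ hσ1 n)) ?_ ?_ ?_
    (kappa_diff hb hσ hσ1 hMb (norm_nonneg _) (G_norm_le hz n σ) (F_le hb hy0 hy1 n hσ hσ1))
  · have h5 := K_w (b := b) (y := y) n σ hσ.le
    have h7 := mul_le_mul_of_nonneg_left (hvle n) (by positivity : (0 : ℝ) ≤ K b y n + 1)
    have h8 : (K b y n + 1) * (2 * Real.exp (-(σ * n))) =
      2 * (K b y n * Real.exp (-(σ * n))) + 2 * Real.exp (-(σ * n)) := by ring
    linarith
  · refine le_trans ?_ (mul_le_mul_of_nonneg_left (hC2 n σ hσ hσ1) (by positivity))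
    rw [mul_sum]
    refine sum_le_sum fun m _ => ?_
    have e1 := hv m
    have e2 := hvle (m + 1)
    have e3 : Real.exp (-(σ * ((m + 1 : ℕ) : ℝ))) ≤ Real.exp (-(σ * m)) := by
      apply Real.exp_le_exp.mpr
      push_cast
      nlinarith
    have e4 : b * vv σ ((b * Real.exp (-σ) - 1) / M) u z (m + 1) -
        vv σ ((b * Real.exp (-σ) - 1) / M) u z m ≤ 2 * b * Real.exp (-(σ * m)) := by
      have : (b : ℝ) * vv σ ((b * Real.exp (-σ) - 1) / M) u z (m + 1) ≤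
        b * (2 * Real.exp (-(σ * m))) := mul_le_mul_of_nonneg_left (by linarith) (by linarith)
      linarith
    have e5 := mul_le_mul_of_nonneg_left e4 (dd_nonneg (b := b) hy0 hτ0 hB0 m)
    linarith
  · have e1 := hv n
    have e2 := hvle 0
    simp only [Nat.cast_zero, mul_zero, neg_zero, Real.exp_zero, mul_one] at e2
    linarith
  · rw [div_le_iff₀ hσ, ← hgeo]
    have := mul_le_mul_of_nonneg_right (by linarith : 1 - Real.exp (-σ) ≤ σ) hW0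
    linarith
  · rw [mul_div_assoc', le_div_iff₀ hσ, ← hgeo]
    have := mul_le_mul_of_nonneg_right hq4 hW0
    linarith

end

end Run7.h53.TW
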