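import Pool.Agent.Run7.h53.TW.Lim

/-!
# Abelian bounds
-/

set_option autoImplicit false
set_option linter.unusedSectionVars false

open Finset Filter Topology MeasureTheory

namespace Run7.h53.TW

lemma int_exp {σ : ℝ} (hσ : 0 < σ) (c : ℝ) :
    ∫ t in Set.Ioi c, σ * Real.exp (-(σ * t)) = Real.exp (-(σ * c)) := by
  rw [integral_const_mul]
  have h := integral_exp_mul_Ioi (a := -σ) (by linarith) c
  simp only [neg_mul] at h
  rw [h]
  field_simp

lemma intg_exp {σ : ℝ} (hσ : 0 < σ) (c : ℝ) :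
    IntegrableOn (fun t => σ * Real.exp (-(σ * t))) (Set.Ioi c) := by
  have h := (integrableOn_exp_mul_Ioi (a := -σ) (by linarith) c).const_mul σ
  unfold IntegrableOn
  simpa only [neg_mul] using h

lemma intg_sqrt {σ : ℝ} (hσ : 0 < σ) :
    IntegrableOn (fun t => Real.sqrt t * (σ * Real.exp (-(σ * t)))) (Set.Ioi 0) := by
  have h := (integrableOn_rpow_mul_exp_neg_mul_rpow (s := 1 / 2) (p := 1) (by norm_num) one_pos
    hσ).const_mul σ
  refine IntegrableOn.congr_fun h (fun t _ => ?_) measurableSet_Ioi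
  simp only [Real.rpow_one, Real.sqrt_eq_rpow, neg_mul]
  ring

lemma int_sqrt {σ : ℝ} (hσ : 0 < σ) :
    ∫ t in Set.Ioi (0 : ℝ), Real.sqrt t * (σ * Real.exp (-(σ * t))) =
      Real.sqrt Real.pi / 2 / Real.sqrt σ := by
  have h := Real.integral_rpow_mul_exp_neg_mul_Ioi (a := 3 / 2) (r := σ) (by norm_num) hσ
  have h1 : ∫ t in Set.Ioi (0 : ℝ), Real.sqrt t * (σ * Real.exp (-(σ * t))) =
      σ * ∫ t in Set.Ioi (0 : ℝ), t ^ ((3 : ℝ) / 2 - 1) * Real.exp (-(σ * t)) := by
    rw [← integral_const_mul]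
    refine setIntegral_congr_fun measurableSet_Ioi fun t _ => ?_
    simp only [Real.sqrt_eq_rpow]
    rw [show (3 : ℝ) / 2 - 1 = 1 / 2 by norm_num]
    ring
  have hG : Real.Gamma (3 / 2) = Real.sqrt Real.pi / 2 := by
    rw [show (3 : ℝ) / 2 = 1 / 2 + 1 by norm_num, Real.Gamma_add_one (by norm_num),
      Real.Gamma_one_half_eq]
    ring
  rw [h1, h, hG]
  have h2 : (1 / σ) ^ ((3 : ℝ) / 2) = 1 / (σ * Real.sqrt σ) := by
    rw [Real.div_rpow zero_le_one hσ.le, Real.one_rpow, show (3 : ℝ) / 2 = 1 + 1 / 2 by norm_num,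
      Real.rpow_add hσ, Real.rpow_one, ← Real.sqrt_eq_rpow]
  rw [h2]
  have h3 : Real.sqrt σ ≠ 0 := (Real.sqrt_pos.mpr hσ).ne'
  field_simp

/-- An upper bound for the sum from a bound for the counting function. -/
lemma upper {a : ℕ → ℝ} (ha0 : ∀ k, 0 ≤ a k) {C α : ℝ} (hC : 0 ≤ C) (hα : 0 ≤ α)
    (hN : ∀ n : ℕ, ∑ k ∈ Icc 1 n, a k ≤ C + α * Real.sqrt n) {σ : ℝ} (hσ : 0 < σ) :
    SS a σ ≤ C + α * (Real.sqrt Real.pi / 2) / Real.sqrt σ := by
  unfold SS
  refine Real.tsum_le_of_sum_range_le (fun k => mul_nonneg (ha0 _) (Real.exp_pos _).le)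
    fun n => ?_
  have h1 : ∑ k ∈ range n, a (k + 1) * Real.exp (-(σ * ((k + 1 : ℕ) : ℝ))) =
      ∫ t in Set.Ioi (0 : ℝ), ∑ k ∈ range n,
        (Set.Ioi (((k + 1 : ℕ) : ℝ))).indicator
          (fun t => a (k + 1) * (σ * Real.exp (-(σ * t)))) t := by
    rw [integral_finsetSum]
    · refine sum_congr rfl fun k _ => ?_
      rw [setIntegral_indicator measurableSet_Ioi, Set.Ioi_inter_Ioi,
        show max (0 : ℝ) (((k + 1 : ℕ) : ℝ)) = ((k + 1 : ℕ) : ℝ) from
          max_eq_right (Nat.cast_nonneg _), integral_const_mul, int_exp hσ]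
    · intro k _
      exact ((intg_exp hσ 0).const_mul (a (k + 1))).indicator measurableSet_Ioi
  have h2 : ∫ t in Set.Ioi (0 : ℝ), (C * (σ * Real.exp (-(σ * t))) +
      α * (Real.sqrt t * (σ * Real.exp (-(σ * t))))) =
      C + α * (Real.sqrt Real.pi / 2) / Real.sqrt σ := by
    rw [integral_add ((intg_exp hσ 0).const_mul C) ((intg_sqrt hσ).const_mul α),
      integral_const_mul C, integral_const_mul α, int_exp hσ, int_sqrt hσ]
    simp only [mul_zero, neg_zero, Real.exp_zero, mul_one]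
    ring
  rw [h1, ← h2]
  refine setIntegral_mono_on ?_ (((intg_exp hσ 0).const_mul C).add
    ((intg_sqrt hσ).const_mul α)) measurableSet_Ioi fun t ht => ?_
  · refine integrable_finsetSum _ fun k _ => ?_
    exact ((intg_exp hσ 0).const_mul (a (k + 1))).indicator measurableSet_Ioi
  · have ht0 : (0 : ℝ) ≤ t := le_of_lt ht
    have he : 0 ≤ σ * Real.exp (-(σ * t)) := mul_nonneg hσ.le (Real.exp_pos _).le
    have h3 : ∑ k ∈ range n, (Set.Ioi (((k + 1 : ℕ) : ℝ))).indicator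
        (fun t => a (k + 1) * (σ * Real.exp (-(σ * t)))) t ≤
        (∑ k ∈ Icc 1 ⌊t⌋₊, a k) * (σ * Real.exp (-(σ * t))) := by
      have h4 : ∑ k ∈ range n, (Set.Ioi (((k + 1 : ℕ) : ℝ))).indicator
          (fun t => a (k + 1) * (σ * Real.exp (-(σ * t)))) t =
          ∑ k ∈ (range n).filter (fun k => ((k + 1 : ℕ) : ℝ) < t),
            a (k + 1) * (σ * Real.exp (-(σ * t))) := by
        rw [sum_filter]
        refine sum_congr rfl fun k _ => ?_
        by_cases hk : ((k + 1 : ℕ) : ℝ) < t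
        · rw [if_pos hk, Set.indicator_of_mem (show t ∈ Set.Ioi (((k + 1 : ℕ) : ℝ)) from hk)]
        · rw [if_neg hk, Set.indicator_of_notMem (show t ∉ Set.Ioi (((k + 1 : ℕ) : ℝ)) from hk)]
      rw [h4, ← sum_mul]
      refine mul_le_mul_of_nonneg_right ?_ he
      have h5 : ∑ k ∈ (range n).filter (fun k => ((k + 1 : ℕ) : ℝ) < t), a (k + 1) =
          ∑ k ∈ ((range n).filter (fun k => ((k + 1 : ℕ) : ℝ) < t)).image (fun k => k + 1),
            a k := by
        rw [sum_image]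
        intro i _ j _ h
        simpa using h
      rw [h5]
      refine sum_le_sum_of_subset_of_nonneg ?_ fun k _ _ => ha0 k
      intro k hk
      obtain ⟨j, hj, rfl⟩ := mem_image.mp hk
      rw [mem_Icc]
      exact ⟨by omega, Nat.le_floor (mem_filter.mp hj).2.le⟩
    refine h3.trans ?_
    have h6 : ∑ k ∈ Icc 1 ⌊t⌋₊, a k ≤ C + α * Real.sqrt t := by
      refine (hN _).trans ?_
      have h7 : Real.sqrt (⌊t⌋₊ : ℝ) ≤ Real.sqrt t := Real.sqrt_le_sqrt (Nat.floor_le ht0)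
      have h8 := mul_le_mul_of_nonneg_left h7 hα
      linarith
    calc (∑ k ∈ Icc 1 ⌊t⌋₊, a k) * (σ * Real.exp (-(σ * t)))
        ≤ (C + α * Real.sqrt t) * (σ * Real.exp (-(σ * t))) := mul_le_mul_of_nonneg_right h6 he
      _ = _ := by ring

end Run7.h53.TW
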